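import Pool.Agent.Helper140_T3.Gr2

/-!
# A theorem of Baer–Suzuki type for elements of order three modulo centralisers
-/

set_option autoImplicit false

namespace Pool.Agent.Helper140_T3

open Pool.Agent.Helper140_E5 Pool.Agent.Helper140_T12
open Subgroup
open scoped commutatorElement

universe u v

/-- products of elements of order three in groups of class two -/
theorem mul_cube {H : Type u} [Group H] {x y : H} (hx : x ^ 3 = 1) (hy : y ^ 3 = 1)
    (hc : ∀ z : H, z * ⁅x, y⁆ = ⁅x, y⁆ * z) : (x * y) ^ 3 = 1 := by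
  obtain ⟨c, hcd⟩ : ∃ c, c = ⁅x, y⁆ := ⟨_, rfl⟩
  rw [← hcd] at hc
  have h1 : x * y = c * (y * x) := by
    rw [hcd, commutatorElement_def]
    group
  have h2 : y * x = c⁻¹ * (x * y) := by rw [h1, inv_mul_cancel_left]
  have hci : ∀ z : H, z * c⁻¹ = c⁻¹ * z := by
    intro z
    rw [eq_inv_mul_iff_mul_eq, ← mul_assoc, ← hc, mul_inv_cancel_right]
  have h3 : x * y * x⁻¹ = c * y := by
    rw [h1, mul_assoc, mul_assoc, mul_inv_cancel, mul_one]
  have h4 : c ^ 3 = 1 := by
    have h5 := conj_pow (i := 3) (a := x) (b := y)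
    have h6 : Commute c y := (hc y).symm
    rw [h3, hy, h6.mul_pow, hy, mul_one, mul_one, mul_inv_cancel] at h5
    exact h5
  have e1 : (x * y) ^ 3 = x * (y * x) * (y * x) * y := by
    simp only [pow_succ, pow_zero, one_mul, mul_assoc]
  have e2 : x * (c⁻¹ * (x * y)) = c⁻¹ * (x * (x * y)) := by
    rw [← mul_assoc, hci, mul_assoc]
  have e3 : (x * y) ^ 3 = c⁻¹ * c⁻¹ * c⁻¹ * (x ^ 3 * y ^ 3) := by
    have f1 : x * (y * x) * (y * x) * y = c⁻¹ * (c⁻¹ * (x * x * y * x * y * y)) := by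
      rw [h2]
      calc x * (c⁻¹ * (x * y)) * (c⁻¹ * (x * y)) * y
          = c⁻¹ * (x * (x * y)) * (c⁻¹ * (x * y)) * y := by rw [e2]
        _ = c⁻¹ * ((x * (x * y)) * c⁻¹) * (x * y) * y := by simp only [mul_assoc]
        _ = c⁻¹ * (c⁻¹ * (x * (x * y))) * (x * y) * y := by rw [hci]
        _ = c⁻¹ * (c⁻¹ * (x * x * y * x * y * y)) := by simp only [mul_assoc]
    have f2 : x * x * y * x * y * y = c⁻¹ * (x ^ 3 * y ^ 3) := by
      calc x * x * y * x * y * y = x * x * (y * x) * y * y := by simp only [mul_assoc]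
        _ = x * x * (c⁻¹ * (x * y)) * y * y := by rw [h2]
        _ = (x * x * c⁻¹) * (x * y * y * y) := by simp only [mul_assoc]
        _ = c⁻¹ * (x * x) * (x * y * y * y) := by rw [hci]
        _ = c⁻¹ * (x ^ 3 * y ^ 3) := by
          simp only [pow_succ, pow_zero, one_mul, mul_assoc]
    rw [e1, f1, f2]
    simp only [mul_assoc]
  rw [e3, hx, hy, mul_one, mul_one]
  have h7 : c⁻¹ * c⁻¹ * c⁻¹ = (c ^ 3)⁻¹ := by
    rw [← inv_pow]
    simp only [pow_succ, pow_zero, one_mul]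
  rw [h7, h4, inv_one]

/-- groups generated by elements of order three whose commutators are central -/
theorem gen_cube {H : Type u} [Group H] (S : Set H) (hS : closure S = ⊤)
    (hS3 : ∀ s ∈ S, s ^ 3 = 1) (hc : ∀ s ∈ S, ∀ t ∈ S, ∀ u ∈ S, u * ⁅s, t⁆ = ⁅s, t⁆ * u) (x : H) :
    x ^ 3 = 1 := by
  have hZ : ∀ s ∈ S, ∀ t ∈ S, ⁅s, t⁆ ∈ center H := by
    intro s hs t ht
    have h1 : closure S ≤ centralizer {⁅s, t⁆} := by
      rw [closure_le]
      intro u hu
      rw [SetLike.mem_coe, mem_centralizer_iff]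
      intro z hz
      rw [Set.mem_singleton_iff] at hz
      subst hz
      exact (hc s hs t ht u hu).symm
    rw [hS] at h1
    rw [mem_center_iff]
    intro g
    exact (mem_centralizer_iff.1 (h1 (mem_top g)) _ rfl).symm
  have hZ1 : ∀ s ∈ S, ∀ y : H, ⁅s, y⁆ ∈ center H := by
    intro s hs
    have h1 : closure S ≤ (centralizer {QuotientGroup.mk' (center H) s}).comap
        (QuotientGroup.mk' (center H)) := by
      rw [closure_le]
      intro t ht
      rw [SetLike.mem_coe, mem_comap, mem_centralizer_iff]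
      intro z hz
      rw [Set.mem_singleton_iff] at hz
      subst hz
      rw [← commutatorElement_eq_one_iff_mul_comm, ← map_commutatorElement]
      exact (QuotientGroup.eq_one_iff _).2 (hZ s hs t ht)
    intro y
    rw [hS] at h1
    have h2 := mem_centralizer_iff.1 (h1 (mem_top y)) _ rfl
    rw [← commutatorElement_eq_one_iff_mul_comm, ← map_commutatorElement] at h2
    exact (QuotientGroup.eq_one_iff _).1 h2
  have hZ2 : ∀ x y : H, ⁅x, y⁆ ∈ center H := by
    intro x y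
    have h1 : closure S ≤ (centralizer {QuotientGroup.mk' (center H) y}).comap
        (QuotientGroup.mk' (center H)) := by
      rw [closure_le]
      intro t ht
      rw [SetLike.mem_coe, mem_comap, mem_centralizer_iff]
      intro z hz
      rw [Set.mem_singleton_iff] at hz
      subst hz
      have h2 := (QuotientGroup.eq_one_iff (N := center H) _).2 (hZ1 t ht y)
      change QuotientGroup.mk' (center H) ⁅t, y⁆ = 1 at h2
      rw [map_commutatorElement, commutatorElement_eq_one_iff_mul_comm] at h2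
      exact h2.symm
    rw [hS] at h1
    have h2 := mem_centralizer_iff.1 (h1 (mem_top x)) _ rfl
    have h3 := h2.symm
    rw [← commutatorElement_eq_one_iff_mul_comm, ← map_commutatorElement] at h3
    exact (QuotientGroup.eq_one_iff _).1 h3
  have hx : x ∈ closure S := by
    rw [hS]
    exact mem_top x
  induction hx using closure_induction with
  | mem z hz => exact hS3 z hz
  | one => exact one_pow 3
  | mul z w _ _ hz hw => exact mul_cube hz hw fun g => mem_center_iff.1 (hZ2 z w) g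
  | inv z _ hz => rw [inv_pow, hz, inv_one]

/-- the ring-theoretic form -/
theorem bs_ring {R : Type u} [Ring R] (h3 : (3 : R) = 0) (S : Set Rˣ)
    (hS3 : ∀ s ∈ S, s ^ 3 = 1) (hS2 : ∀ s ∈ S, (s.val - 1) * (s.val - 1) = 0)
    (hST : ∀ s ∈ S, ∀ t ∈ S, ((s * t : Rˣ).val - 1) * ((s * t : Rˣ).val - 1) = 0 ∨
      ((s * t⁻¹ : Rˣ).val - 1) * ((s * t⁻¹ : Rˣ).val - 1) = 0)
    (x : Rˣ) (hx : x ∈ closure S) : x ^ 3 = 1 := by
  have hanti : ∀ s ∈ S, ∀ t ∈ S,
      (s.val - 1) * (t.val - 1) + (t.val - 1) * (s.val - 1) = 0 := by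
    intro s hs t ht
    obtain ⟨A, hA⟩ : ∃ A, A = s.val - 1 := ⟨_, rfl⟩
    obtain ⟨B, hB⟩ : ∃ B, B = t.val - 1 := ⟨_, rfl⟩
    have hsA : s.val = 1 + A := by rw [hA]; abel
    have htB : t.val = 1 + B := by rw [hB]; abel
    have hAA := hS2 s hs
    have hBB := hS2 t ht
    rw [← hA] at hAA ⊢
    rw [← hB] at hBB ⊢
    rcases hST s hs t ht with h | h
    · have e1 : (A * B + B * A) * (s * t : Rˣ).val = 0 := by
        rw [← h, Units.val_mul, hsA, htB]
        linear_combination (norm := noncomm_ring) B * hAA + B * hAA * B + A * B * A * hBB * 0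
          - hAA - hBB - hAA * B
      have e2 := congrArg (· * ((s * t)⁻¹ : Rˣ).val) e1
      simp only [zero_mul] at e2
      rw [mul_assoc, Units.mul_inv, mul_one] at e2
      exact e2
    · have hti : (t⁻¹).val = 1 - B := by
        apply Units.inv_eq_of_mul_eq_one_right
        rw [htB, add_mul, one_mul, mul_sub, mul_one, hBB]
        abel
      have e1 : (A * B + B * A) * (s * t⁻¹ : Rˣ).val = 0 := by
        rw [Units.val_mul, hsA, hti] at h ⊢
        linear_combination (norm := noncomm_ring) B * hAA - B * hAA * B + hAA - hAA * B + hBB - h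
      have e2 := congrArg (· * ((s * t⁻¹)⁻¹ : Rˣ).val) e1
      simp only [zero_mul] at e2
      rw [mul_assoc, Units.mul_inv, mul_one] at e2
      exact e2
  have h1 := gen_cube (H := closure S) (Subtype.val ⁻¹' S) closure_closure_coe_preimage (by
    intro s hs
    exact Subtype.ext (hS3 s.1 hs)) (by
    intro s hs t ht u hu
    apply Subtype.ext
    change u.1 * ⁅s.1, t.1⁆ = ⁅s.1, t.1⁆ * u.1
    obtain ⟨s, hs0⟩ := s
    obtain ⟨t, ht0⟩ := t
    obtain ⟨u, hu0⟩ := u
    have k1 := hanti s hs t ht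
    have k2 := hanti s hs u hu
    have k3 := hanti t ht u hu
    have hAA := hS2 s hs
    have hBB := hS2 t ht
    change u * ⁅s, t⁆ = ⁅s, t⁆ * u
    obtain ⟨A, hA⟩ : ∃ A, A = s.val - 1 := ⟨_, rfl⟩
    obtain ⟨B, hB⟩ : ∃ B, B = t.val - 1 := ⟨_, rfl⟩
    obtain ⟨E, hE⟩ : ∃ E, E = u.val - 1 := ⟨_, rfl⟩
    rw [← hA, ← hB] at k1
    rw [← hA, ← hE] at k2
    rw [← hB, ← hE] at k3
    rw [← hA] at hAA
    rw [← hB] at hBB
    have hsA : s.val = 1 + A := by rw [hA]; abel
    have htB : t.val = 1 + B := by rw [hB]; abel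
    have huE : u.val = 1 + E := by rw [hE]; abel
    have hsi : (s⁻¹).val = 1 - A := by
      apply Units.inv_eq_of_mul_eq_one_right
      rw [hsA, add_mul, one_mul, mul_sub, mul_one, hAA]
      abel
    have hti : (t⁻¹).val = 1 - B := by
      apply Units.inv_eq_of_mul_eq_one_right
      rw [htB, add_mul, one_mul, mul_sub, mul_one, hBB]
      abel
    have hcv : (⁅s, t⁆ : Rˣ).val = 1 + (A * B + A * B) := by
      rw [commutatorElement_def, Units.val_mul, Units.val_mul, Units.val_mul, hsA, htB, hsi, hti]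
      linear_combination (norm := noncomm_ring) -k1 - hAA - hBB + hAA * B + (k1 * B - A * hBB)
        - A * k1 + hAA * B - A * hBB + A * k1 * B - hAA * B * B
    apply Units.ext
    rw [Units.val_mul, Units.val_mul, hcv, huE]
    linear_combination (norm := noncomm_ring) k2 * B - A * k3 + k2 * B - A * k3) ⟨x, hx⟩
  exact congrArg Subtype.val h1

section
variable {G : Type u} [Group G] {m : ℕ}

/-- the theorem of Baer–Suzuki type -/
theorem core_bs (h3 : ¬ 3 ∣ m) (hG : ∀ x : G, x ^ (3 * m) = 1)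
    {N P : Subgroup G} [hN : N.Normal] (hP : P.Normal) (hPN : P ≤ N)
    (hP3 : ∀ x ∈ P, x ^ 3 = 1) (hc : N ⊓ centralizer (P : Set G) ≤ P)
    {x : G} (hx : x ^ 3 ∈ centralizer (N : Set G))
    (hxg : ∀ g : G, (x * (g * x * g⁻¹)) ^ 3 ∈ centralizer (N : Set G) ∨
      ⁅x, g⁆ ^ 3 ∈ centralizer (N : Set G)) {y : G}
    (hy : y ∈ normalClosure ({x} : Set G)) : y ^ 3 ∈ centralizer (N : Set G) := by
  have hle : centralizer (N : Set G) ≤ centralizer (P : Set G) := centralizer_le hPN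
  have hD : (⁅P, P⁆ : Subgroup G).Normal := commutator_normal _ _
  have hDP : (⁅P, P⁆ : Subgroup G) ≤ P := comm_self_le P
  have hds : ds P 2 = ⊥ := exists_ds 2 (meta3 fun x : P => Subtype.ext (hP3 x x.2))
  have hD3 : ∀ z ∈ (⁅P, P⁆ : Subgroup G), z ^ 3 = 1 := fun z hz => hP3 z (hDP hz)
  have hDab : ∀ x ∈ (⁅P, P⁆ : Subgroup G), ∀ y ∈ (⁅P, P⁆ : Subgroup G), x * y = y * x := by
    intro u hu v hv
    have h5 : ⁅u, v⁆ ∈ (⊥ : Subgroup G) := by
      rw [← hds]
      exact commutator_mem_commutator hu hv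
    exact commutatorElement_eq_one_iff_mul_comm.1 (mem_bot.1 h5)
  set π := QuotientGroup.mk' ⁅P, P⁆ with hπ
  have hπs : Function.Surjective π := QuotientGroup.mk'_surjective _
  have hG' : ∀ x : G ⧸ (⁅P, P⁆ : Subgroup G), x ^ (3 * m) = 1 := fun x => by
    obtain ⟨g, rfl⟩ := hπs x
    rw [← map_pow, hG, map_one]
  have hP' : (P.map π).Normal := hP.map π hπs
  have hPab : ∀ x ∈ P.map π, ∀ y ∈ P.map π, x * y = y * x := by
    rintro _ ⟨u, hu, rfl⟩ _ ⟨v, hv, rfl⟩
    rw [← commutatorElement_eq_one_iff_mul_comm, ← map_commutatorElement]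
    exact (QuotientGroup.eq_one_iff _).2 (commutator_mem_commutator hu hv)
  have hP3' : ∀ x ∈ P.map π, x ^ 3 = 1 := by
    rintro _ ⟨u, hu, rfl⟩
    rw [← map_pow, hP3 u hu, map_one]
  let c1 := (cj hP' hPab).comp π
  let c2 := cj hD hDab
  let θ := (c1.prod c2).toHomUnits
  have hθ : ∀ g, (θ g).val = (c1 g, c2 g) := fun g => rfl
  have hk1 : ∀ g, c1 g = 1 ↔ g ∈ Cs ⁅P, P⁆ P := by
    intro g
    have h1 : π g ∈ (cj hP' hPab).toHomUnits.ker ↔
        π g ∈ centralizer ((P.map π : Subgroup _) : Set _) := by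
      rw [ker_cj]
    rw [MonoidHom.mem_ker, Units.ext_iff] at h1
    exact h1
  have hk2 : ∀ g, c2 g = 1 ↔ g ∈ centralizer ((⁅P, P⁆ : Subgroup G) : Set G) := by
    intro g
    have h1 : g ∈ (cj hD hDab).toHomUnits.ker ↔
        g ∈ centralizer ((⁅P, P⁆ : Subgroup G) : Set G) := by
      rw [ker_cj]
    rw [MonoidHom.mem_ker, Units.ext_iff] at h1
    exact h1
  have hθ1 : ∀ g, θ g = 1 ↔ g ∈ Cs ⁅P, P⁆ P ∧
      g ∈ centralizer ((⁅P, P⁆ : Subgroup G) : Set G) := by
    intro g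
    rw [← hk1, ← hk2, Units.ext_iff, hθ, Units.val_one, Prod.ext_iff]
    rfl
  have hcs : ∀ g ∈ centralizer (P : Set G), g ∈ Cs ⁅P, P⁆ P := by
    intro g hg
    rw [mem_Cs]
    intro n hn
    have h5 := mem_centralizer_iff.1 hg n hn
    have h6 : ⁅n, g⁆ = 1 := by
      rw [commutatorElement_eq_one_iff_mul_comm]
      exact h5
    rw [h6]
    exact one_mem _
  have hcD : centralizer (P : Set G) ≤ centralizer ((⁅P, P⁆ : Subgroup G) : Set G) :=
    centralizer_le hDP
  -- the kernel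
  have hkP : ∀ g, θ g = 1 → g ^ 3 ∈ centralizer (P : Set G) := by
    intro g hg
    obtain ⟨s1, s2⟩ := (hθ1 g).1 hg
    refine stab_cube hP hD3 (fun n hn => ?_) s2
    have h5 := mem_Cs.1 s1 n⁻¹ (inv_mem hn)
    rw [commutatorElement_def, inv_inv] at h5
    have e2 : n⁻¹ * (g * n * g⁻¹) = n⁻¹ * g * n * g⁻¹ := by group
    rw [e2]
    exact h5
  have hCn : (centralizer (P : Set G)).Normal := inferInstance
  have hkN : ∀ g ∈ centralizer (P : Set G), g ^ 3 ∈ centralizer (N : Set G) := by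
    intro g hg
    refine stab_cube (M := N ⊓ centralizer (P : Set G)) hN (fun z hz => hP3 z (hc hz)) ?_ ?_
    · intro n hn
      refine mem_inf.2 ⟨mul_mem (inv_mem hn) (hN.conj_mem n hn _), ?_⟩
      have h5 := hCn.conj_mem _ hg n⁻¹
      rw [inv_inv] at h5
      have e2 : n⁻¹ * (g * n * g⁻¹) = n⁻¹ * g * n * g⁻¹ := by group
      rw [e2]
      exact mul_mem h5 (inv_mem hg)
    · rw [mem_centralizer_iff]
      intro z hz
      exact mem_centralizer_iff.1 hg z (hc hz)
  have hker : ∀ g, θ g = 1 → g ^ 3 ∈ centralizer (N : Set G) := by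
    intro g hg
    refine three_of_nine' h3 hG ?_
    have e : g ^ 9 = (g ^ 3) ^ 3 := by rw [← pow_mul]
    rw [e]
    exact hkN _ (hkP g hg)
  have hCθ : ∀ g ∈ centralizer (N : Set G), θ g = 1 := fun g hg =>
    (hθ1 g).2 ⟨hcs g (hle hg), hcD (hle hg)⟩
  have hR : (3 : AddMonoid.End (NV (P.map π) hPab) × AddMonoid.End (NV ⁅P, P⁆ hDab)) = 0 := by
    refine Prod.ext (AddMonoidHom.ext fun v => tN_inj ?_) (AddMonoidHom.ext fun v => tN_inj ?_)
    · have e : (3 : AddMonoid.End (NV (P.map π) hPab)) v = (3 : ℕ) • v := rfl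
      exact (congrArg tN e).trans (by rw [tN_nsmul, hP3' _ (tN_mem v)]; rfl)
    · have e : (3 : AddMonoid.End (NV ⁅P, P⁆ hDab)) v = (3 : ℕ) • v := rfl
      exact (congrArg tN e).trans (by rw [tN_nsmul, hD3 _ (tN_mem v)]; rfl)
  have hq : ∀ g, θ g ^ 3 = 1 → ((θ g).val - 1) * ((θ g).val - 1) = 0 := by
    intro g hg
    rw [← map_pow] at hg
    obtain ⟨s1, s2⟩ := (hθ1 _).1 hg
    rw [hθ]
    refine Prod.ext ?_ ?_
    · exact ab_quad h3 hG' hP' hPab hP3' (π g) (by rw [← map_pow]; exact s1)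
    · exact ab_quad h3 hG hD hDab hD3 g s2
  set S : Set (AddMonoid.End (NV (P.map π) hPab) × AddMonoid.End (NV ⁅P, P⁆ hDab))ˣ :=
    {s | ∃ g, s = θ (g * x * g⁻¹)} with hS
  have hx1 : θ x ^ 3 = 1 := by
    rw [← map_pow]
    exact hCθ _ hx
  have hS3 : ∀ s ∈ S, s ^ 3 = 1 := by
    rintro _ ⟨g, rfl⟩
    rw [← map_pow, conj_pow, map_mul, map_mul, map_pow, hx1, mul_one, map_inv, mul_inv_cancel]
  have hq' : ∀ g, θ g ^ 3 = 1 → ((θ g).val - 1) * ((θ g).val - 1) = 0 := hq
  have hclo : θ y ∈ closure S := by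
    have h1 : (normalClosure ({x} : Set G)).map θ ≤ closure S := by
      rw [map_le_iff_le_comap, normalClosure, closure_le]
      intro z hz
      rw [Group.mem_conjugatesOfSet_iff] at hz
      obtain ⟨a, ha, hz⟩ := hz
      rw [Set.mem_singleton_iff] at ha
      subst ha
      obtain ⟨g, rfl⟩ := isConj_iff.1 hz
      exact subset_closure ⟨g, rfl⟩
    exact h1 ⟨y, hy, rfl⟩
  have h5 := bs_ring hR S hS3 (by
    rintro _ ⟨g, rfl⟩
    exact hq' _ (hS3 _ ⟨g, rfl⟩)) (by
    rintro _ ⟨g, rfl⟩ _ ⟨h, rfl⟩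
    rcases hxg (g⁻¹ * h) with hgh | hgh
    · left
      rw [← map_mul]
      apply hq'
      have e : g * x * g⁻¹ * (h * x * h⁻¹) =
          g * (x * ((g⁻¹ * h) * x * (g⁻¹ * h)⁻¹)) * g⁻¹ := by
        group
      rw [e, ← map_pow, conj_pow, map_mul, map_mul, hCθ _ hgh, mul_one, map_inv, mul_inv_cancel]
    · right
      rw [← map_inv, ← map_mul]
      apply hq'
      have e : g * x * g⁻¹ * (h * x * h⁻¹)⁻¹ = g * ⁅x, g⁻¹ * h⁆ * g⁻¹ := by
        rw [commutatorElement_def]
        group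
      rw [e, ← map_pow, conj_pow, map_mul, map_mul, hCθ _ hgh, mul_one, map_inv,
        mul_inv_cancel]) (θ y) hclo
  rw [← map_pow] at h5
  refine three_of_nine' h3 hG ?_
  have e : y ^ 9 = (y ^ 3) ^ 3 := by rw [← pow_mul]
  rw [e]
  exact hker _ h5

end

end Pool.Agent.Helper140_T3
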