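import Pool.Agent.Helper140_T3.Gr
import Pool.Agent.Helper140_T12.Lc

/-!
# Normal subgroups without normal `3'`-subgroups: centralisers of the largest normal `3`-subgroup
-/

set_option autoImplicit false

namespace Pool.Agent.Helper140_T3

open Pool.Agent.Helper140_E5 Pool.Agent.Helper140_T12
open Subgroup
open scoped commutatorElement

universe u

/-- central by `3'`-groups: products of `3'`-elements -/
theorem tr_mul {F : Type u} [Group F] {m : ℕ} (h3 : ¬ 3 ∣ m) (hG : ∀ x : F, x ^ (3 * m) = 1)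
    [hf : Finite F] {Z : Subgroup F} (hZ : Z ≤ center F) (hm : ∀ x : F, x ^ m ∈ Z) {x y : F}
    (hx : x ^ m = 1) (hy : y ^ m = 1) : (x * y) ^ m = 1 := by
  have hZn : Z.Normal := ⟨fun n hn g => by
    have := mem_center_iff.1 (hZ hn) g
    rw [this, mul_inv_cancel_right]
    exact hn⟩
  have h5 : Fact (Nat.Prime 3) := ⟨Nat.prime_three⟩
  have hidx : ¬ 3 ∣ Z.index := by
    intro h
    obtain ⟨g, hg⟩ := exists_prime_orderOf_dvd_card' (G := F ⧸ Z) 3 h
    obtain ⟨g, rfl⟩ := QuotientGroup.mk_surjective g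
    apply h3
    rw [← hg]
    apply orderOf_dvd_of_pow_eq_one
    rw [← QuotientGroup.mk_pow]
    exact (QuotientGroup.eq_one_iff _).2 (hm g)
  have hi : (center F).index ∣ Z.index := index_dvd_of_le hZ
  set i := (center F).index with hidef
  have hi3 : ¬ 3 ∣ i := fun h => hidx (h.trans hi)
  have hxy : (x * y) ^ i = x ^ i * y ^ i := by
    have := congrArg Subtype.val (map_mul (MonoidHom.transferCenterPow F) x y)
    rw [MonoidHom.transferCenterPow_apply] at this
    exact this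
  have hc : Commute (x ^ i) (y ^ i) := by
    have h1 : y ^ i ∈ center F := by
      have := (MonoidHom.transferCenterPow F y).2
      rwa [MonoidHom.transferCenterPow_apply] at this
    exact mem_center_iff.1 h1 (x ^ i)
  have h5 : (x * y) ^ (i * m) = 1 := by
    rw [pow_mul, hxy, hc.mul_pow, ← pow_mul, ← pow_mul, mul_comm i m, pow_mul, pow_mul, hx, hy,
      one_pow, one_mul]
  have h6 : orderOf (x * y) ∣ Nat.gcd (i * m) (3 * m) :=
    Nat.dvd_gcd (orderOf_dvd_of_pow_eq_one h5) (orderOf_dvd_of_pow_eq_one (hG _))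
  have h7 : Nat.gcd (i * m) (3 * m) = m := by
    have h8 : Nat.Coprime i 3 := ((Nat.Prime.coprime_iff_not_dvd Nat.prime_three).2 hi3).symm
    have : Nat.gcd (i * m) (3 * m) = Nat.gcd i 3 * m := Nat.gcd_mul_right i m 3
    rw [h8, one_mul] at this
    exact this
  rw [h7] at h6
  exact orderOf_dvd_iff_pow_eq_one.1 h6

section
variable {G : Type u} [Group G] {m : ℕ}

theorem m_of_mm (h3 : ¬ 3 ∣ m) (hG : ∀ x : G, x ^ (3 * m) = 1) {x : G} (h : x ^ (m * m) = 1) :
    x ^ m = 1 := by
  have h6 : orderOf x ∣ Nat.gcd (m * m) (3 * m) :=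
    Nat.dvd_gcd (orderOf_dvd_of_pow_eq_one h) (orderOf_dvd_of_pow_eq_one (hG _))
  have h8 : Nat.Coprime m 3 := ((Nat.Prime.coprime_iff_not_dvd Nat.prime_three).2 h3).symm
  rw [Nat.gcd_mul_right, h8, one_mul] at h6
  exact orderOf_dvd_iff_pow_eq_one.1 h6

/-- the largest normal subgroup of exponent three -/
theorem exists_O3' (h3 : ¬ 3 ∣ m) (hG : ∀ x : G, x ^ (3 * m) = 1) (N : Subgroup G) :
    ∃ P : Subgroup G, P.Normal ∧ P ≤ N ∧ (∀ x ∈ P, x ^ 3 = 1) ∧
      ∀ L : Subgroup G, L.Normal → L ≤ N → (∀ x ∈ L, x ^ 3 = 1) → L ≤ P := by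
  refine ⟨{ carrier := {x | ∃ L : Subgroup G, L.Normal ∧ L ≤ N ∧ (∀ y ∈ L, y ^ 3 = 1) ∧ x ∈ L}
            one_mem' := ⟨⊥, inferInstance, bot_le, fun y hy => by
              rw [mem_bot] at hy
              rw [hy, one_pow], one_mem _⟩
            mul_mem' := ?_
            inv_mem' := fun {x} ⟨L, h1, h2, h3, h4⟩ => ⟨L, h1, h2, h3, inv_mem h4⟩ }, ?_, ?_, ?_, ?_⟩
  · rintro x y ⟨L, h1, h2, h3', h4⟩ ⟨K, k1, k2, k3, k4⟩
    refine ⟨L ⊔ K, inferInstance, sup_le h2 k2, ?_, mul_mem (mem_sup_left h4) (mem_sup_right k4)⟩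
    intro z hz
    have hz' : z ∈ ((L ⊔ K : Subgroup G) : Set G) := hz
    rw [mul_normal] at hz'
    obtain ⟨a, ha, b, hb, rfl⟩ := hz'
    have h5 : (a * b) ^ 3 ∈ K := by
      rw [← QuotientGroup.eq_one_iff (N := K), QuotientGroup.mk_pow, QuotientGroup.mk_mul,
        (QuotientGroup.eq_one_iff b).2 hb, mul_one, ← QuotientGroup.mk_pow, h3' a ha,
        QuotientGroup.mk_one]
    refine three_of_nine1 h3 hG ?_
    have e : (a * b) ^ 9 = ((a * b) ^ 3) ^ 3 := by rw [← pow_mul]
    change (a * b) ^ 9 = 1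
    rw [e, k3 _ h5]
  · refine ⟨fun x hx g => ?_⟩
    obtain ⟨L, h1, h2, h3, h4⟩ := hx
    exact ⟨L, h1, h2, h3, h1.conj_mem x h4 g⟩
  · rintro x ⟨L, h1, h2, h3, h4⟩
    exact h2 h4
  · rintro x ⟨L, h1, h2, h3, h4⟩
    exact h3 x h4
  · intro L h1 h2 h3 x hx
    exact ⟨L, h1, h2, h3, hx⟩

/-- subgroups `A` of the centraliser with `A / (A ∩ P)` of exponent `3` or `m` -/
theorem A_le' (h3 : ¬ 3 ∣ m) (hG : ∀ x : G, x ^ (3 * m) = 1) {N P A : Subgroup G}
    (h2 : ∀ L : Subgroup G, L.Normal → L ≤ N → (∀ x ∈ L, x ^ m = 1) → L = ⊥)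
    (hP3 : ∀ x ∈ P, x ^ 3 = 1)
    (hPmax : ∀ L : Subgroup G, L.Normal → L ≤ N → (∀ x ∈ L, x ^ 3 = 1) → L ≤ P)
    (hfin : ∀ x ∈ N, ∀ y ∈ N, Finite (closure ({x, y} : Set G)))
    (hA : A.Normal) (hAN : A ≤ N) (hAC : A ≤ centralizer (P : Set G))
    (h : (∀ x ∈ A, x ^ 3 ∈ P) ∨ (∀ x ∈ A, x ^ m ∈ P)) : A ≤ P := by
  rcases h with h | h5
  · refine hPmax A hA hAN fun x hx => three_of_nine1 h3 hG ?_
    have e : x ^ 9 = (x ^ 3) ^ 3 := by rw [← pow_mul]
    rw [e, hP3 _ (h x hx)]
  · have hmul : ∀ x ∈ A, ∀ y ∈ A, x ^ m = 1 → y ^ m = 1 → (x * y) ^ m = 1 := by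
      intro x hx y hy hxm hym
      have hf := hfin x (hAN hx) y (hAN hy)
      set F := closure ({x, y} : Set G) with hF
      have hFA : F ≤ A := by
        rw [hF, closure_le]
        rintro z (rfl | rfl)
        · exact hx
        · exact hy
      have hxF : x ∈ F := subset_closure (by simp)
      have hyF : y ∈ F := subset_closure (by simp)
      have h := tr_mul (F := F) h3 (fun a => Subtype.ext (hG a)) (Z := P.subgroupOf F) (by
        intro a ha
        rw [mem_center_iff]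
        intro b
        have hb : (b : G) ∈ centralizer (P : Set G) := hAC (hFA b.2)
        exact Subtype.ext (mem_centralizer_iff.1 hb _ ha).symm) (fun a => h5 a (hFA a.2))
        (x := ⟨x, hxF⟩) (y := ⟨y, hyF⟩) (Subtype.ext hxm) (Subtype.ext hym)
      exact congrArg Subtype.val h
    have h6 := h2 { carrier := {x | x ∈ A ∧ x ^ m = 1}
                    one_mem' := ⟨one_mem _, one_pow _⟩
                    mul_mem' := fun {x y} hx hy => ⟨mul_mem hx.1 hy.1,
                      hmul x hx.1 y hy.1 hx.2 hy.2⟩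
                    inv_mem' := fun {x} hx => ⟨inv_mem hx.1, by
                      rw [inv_pow, hx.2, inv_one]⟩ } ⟨fun x hx g =>
                        ⟨hA.conj_mem x hx.1 g, by
                          rw [conj_pow, hx.2, mul_one, mul_inv_cancel]⟩⟩
      (fun x hx => hAN hx.1) (fun x hx => hx.2)
    refine hPmax A hA hAN fun x hx => ?_
    have h7 : x ^ 3 ∈ (⊥ : Subgroup G) := by
      rw [← h6]
      refine ⟨pow_mem hx 3, ?_⟩
      rw [← pow_mul]
      exact hG x
    exact mem_bot.1 h7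

/-- soluble normal subgroups -/
theorem cen_sol (h3 : ¬ 3 ∣ m) (hG : ∀ x : G, x ^ (3 * m) = 1) {N : Subgroup G} (hN : N.Normal)
    (hs : Group.IsSolvable N)
    (h2 : ∀ L : Subgroup G, L.Normal → L ≤ N → (∀ x ∈ L, x ^ m = 1) → L = ⊥) :
    ∃ P : Subgroup G, P.Normal ∧ P ≤ N ∧ (∀ x ∈ P, x ^ 3 = 1) ∧
      N ⊓ centralizer (P : Set G) ≤ P := by
  have hm : 0 < 3 * m := by
    rcases Nat.eq_zero_or_pos m with rfl | h
    · exact absurd (dvd_zero 3) h3
    · omega
  obtain ⟨P, hP, hPN, hP3, hPmax⟩ := exists_O3' h3 hG N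
  refine ⟨P, hP, hPN, hP3, ?_⟩
  obtain ⟨k, hk⟩ := ds_bot hs
  obtain ⟨k', hk'⟩ := hs.solvable
  have hlf : LFin N := lf_soluble hm k' N hk' fun x => Subtype.ext (hG x)
  have hfin : ∀ x ∈ N, ∀ y ∈ N, Finite (closure ({x, y} : Set G)) := fun x hx y hy =>
    lf_cl hlf (by simp) (by
      rintro z (rfl | rfl)
      · exact hx
      · exact hy)
  set C := N ⊓ centralizer (P : Set G) with hC
  have hCn : C.Normal := by
    have : (centralizer (P : Set G)).Normal := inferInstance
    exact normal_inf_normal _ _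
  have hCN : C ≤ N := inf_le_left
  -- the terms of the derived series of `C` lie in `P`
  have key : ∀ i, i ≤ k → ds C (k - i) ≤ P := by
    intro i
    induction i with
    | zero =>
      intro _
      rw [Nat.sub_zero]
      have h1 : ds C k ≤ ds N k := ds_mono hCN k
      rw [hk] at h1
      exact h1.trans bot_le
    | succ i ih =>
      intro hik
      have ih' := ih (by omega)
      have e : k - i = (k - (i + 1)) + 1 := by omega
      rw [e] at ih'
      set A := ds C (k - (i + 1)) with hA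
      have hAn : A.Normal := ds_normal hCn _
      have hAC : A ≤ C := ds_anti C (Nat.zero_le _)
      have hcomm : ⁅A, A⁆ ≤ P := ih'
      have hBmul : ∀ x ∈ A, ∀ y ∈ A, x ^ m ∈ P → y ^ m ∈ P → (x * y) ^ m ∈ P := by
        intro x hx y hy hx3 hy3
        rw [← QuotientGroup.eq_one_iff] at hx3 hy3 ⊢
        have hc : Commute (QuotientGroup.mk' P x) (QuotientGroup.mk' P y) := by
          rw [← commutatorElement_eq_one_iff_commute, ← map_commutatorElement]
          exact (QuotientGroup.eq_one_iff _).2 (hcomm (commutator_mem_commutator hx hy))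
        change QuotientGroup.mk' P (x ^ m) = 1 at hx3
        change QuotientGroup.mk' P (y ^ m) = 1 at hy3
        change QuotientGroup.mk' P ((x * y) ^ m) = 1
        rw [map_pow, map_mul, hc.mul_pow, ← map_pow, ← map_pow, hx3, hy3, one_mul]
      have hB := A_le' h3 hG h2 hP3 hPmax hfin
        (A := { carrier := {x | x ∈ A ∧ x ^ m ∈ P}
                one_mem' := ⟨one_mem _, by rw [one_pow]; exact one_mem _⟩
                mul_mem' := fun {x y} hx hy => ⟨mul_mem hx.1 hy.1,
                  hBmul x hx.1 y hy.1 hx.2 hy.2⟩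
                inv_mem' := fun {x} hx => ⟨inv_mem hx.1, by
                  rw [inv_pow]; exact inv_mem hx.2⟩ }) ⟨fun x hx g =>
                    ⟨hAn.conj_mem x hx.1 g, by
                      rw [conj_pow]; exact hP.conj_mem _ hx.2 g⟩⟩
        (fun x hx => hCN (hAC hx.1)) (fun x hx => (hAC hx.1).2) (Or.inr fun x hx => hx.2)
      refine A_le' h3 hG h2 hP3 hPmax hfin hAn (hAC.trans hCN) (fun x hx => (hAC hx).2)
        (Or.inl fun x hx => hB ⟨pow_mem hx 3, ?_⟩)
      rw [← pow_mul, hG]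
      exact one_mem _
  have := key k le_rfl
  rw [Nat.sub_self] at this
  exact this

/-- locally soluble normal subgroups -/
theorem cen_loc (h3 : ¬ 3 ∣ m) (hG : ∀ x : G, x ^ (3 * m) = 1)
    (T : Pool.Agent.TH69.Og.TrS (3 * m)) {N : Subgroup G} (hN : N.Normal)
    (hfin : ∀ x ∈ N, ∀ y ∈ N, Finite (closure ({x, y} : Set G)))
    (hsol : ∀ x ∈ N, ∀ y ∈ N, Group.IsSolvable (closure ({x, y} : Set G)))
    (h2 : ∀ L : Subgroup G, L.Normal → L ≤ N → (∀ x ∈ L, x ^ m = 1) → L = ⊥) :
    ∃ P : Subgroup G, P.Normal ∧ P ≤ N ∧ (∀ x ∈ P, x ^ 3 = 1) ∧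
      N ⊓ centralizer (P : Set G) ≤ P := by
  obtain ⟨P, hP, hPN, hP3, hPmax⟩ := exists_O3' h3 hG N
  refine ⟨P, hP, hPN, hP3, ?_⟩
  set C := N ⊓ centralizer (P : Set G) with hC
  have hCn : C.Normal := by
    have : (centralizer (P : Set G)).Normal := inferInstance
    exact normal_inf_normal _ _
  by_contra hcon
  obtain ⟨c, hcC, hcP⟩ := SetLike.not_le_iff_exists.1 hcon
  set Z := C ⊓ P with hZ
  have hZn : Z.Normal := normal_inf_normal _ _
  set π := QuotientGroup.mk' Z with hπ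
  have hπs : Function.Surjective π := QuotientGroup.mk'_surjective Z
  have hG' : ∀ x : G ⧸ Z, x ^ (3 * m) = 1 := fun x => by
    obtain ⟨g, rfl⟩ := hπs x
    rw [← map_pow, hG, map_one]
  have hCb : (C.map π).Normal := hCn.map π hπs
  have hker : ∀ x : G, π x = 1 ↔ x ∈ Z := fun x => QuotientGroup.eq_one_iff x
  have hnt : Nontrivial (C.map π) := by
    refine ⟨⟨⟨π c, c, hcC, rfl⟩, 1, fun h => hcP ?_⟩⟩
    have h1 : π c = 1 := congrArg Subtype.val h
    exact ((hker c).1 h1).2
  -- two-generator subgroups of `C / Z`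
  have hgen : ∀ x y : C.map π, ∃ a ∈ N, ∃ b ∈ N,
      (closure ({x, y} : Set (C.map π))).map (C.map π).subtype
        = (closure ({a, b} : Set G)).map π := by
    rintro ⟨_, a, ha, rfl⟩ ⟨_, b, hb, rfl⟩
    refine ⟨a, ha.1, b, hb.1, ?_⟩
    rw [MonoidHom.map_closure, MonoidHom.map_closure]
    congr 1
    rw [Set.image_pair, Set.image_pair]
    rfl
  have hf' : ∀ x y : C.map π, Finite (closure ({x, y} : Set (C.map π))) := by
    intro x y
    obtain ⟨a, ha, b, hb, hab⟩ := hgen x y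
    have h1 := hfin a ha b hb
    have h4 : Finite ((closure ({a, b} : Set G)).map π) :=
      Finite.of_surjective _ (π.subgroupMap_surjective (closure ({a, b} : Set G)))
    rw [← hab] at h4
    exact Finite.of_injective _ (((closure ({x, y} : Set (C.map π))).equivMapOfInjective _
      (Subgroup.subtype_injective _)).injective)
  have hs' : ∀ x y : C.map π, Group.IsSolvable (closure ({x, y} : Set (C.map π))) := by
    intro x y
    obtain ⟨a, ha, b, hb, hab⟩ := hgen x y
    have h1 := hsol a ha b hb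
    have h4 : Group.IsSolvable ((closure ({a, b} : Set G)).map π) :=
      Group.isSolvable_of_surjective (π.subgroupMap_surjective (closure ({a, b} : Set G)))
    rw [← hab] at h4
    exact Group.isSolvable_of_isSolvable_injective
      (f := ((closure ({x, y} : Set (C.map π))).equivMapOfInjective _
        (Subgroup.subtype_injective _)).toMonoidHom)
      ((closure ({x, y} : Set (C.map π))).equivMapOfInjective _
        (Subgroup.subtype_injective _)).injective
  obtain ⟨p, k, hp, hk, L, hL, hL1, hLq⟩ := Pool.Agent.TH69.Og.exists_normalS T (C.map π)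
    (fun x => Subtype.ext (hG' x)) hf' (Or.inr hs') hnt
  have hex : ∃ Ab : Subgroup (G ⧸ Z), Ab.Normal ∧ Ab ≤ C.map π ∧ Ab ≠ ⊥ ∧
      ((∀ x ∈ Ab, x ^ 3 = 1) ∨ (∀ x ∈ Ab, x ^ m = 1)) := by
    by_cases hp3 : p = 3
    · obtain ⟨Ab, a1, a2, a3, a4⟩ := exists_Oq_sub (q := 3) (fun x hx => three_of_nine1 h3 hG' hx)
        hCb hL hL1 (by
          intro x hx
          subst hp3
          have h4 : 3 ^ k ∣ 3 := Nat.Coprime.dvd_of_dvd_mul_right (k := 3 ^ k) (n := m) (m := 3)
            (Nat.Coprime.pow_left _ ((Nat.Prime.coprime_iff_not_dvd Nat.prime_three).2 h3)) hk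
          obtain ⟨c, hc⟩ := h4
          have h5 : x ^ 3 = x ^ (3 ^ k * c) := congrArg (x ^ ·) hc
          rw [h5, pow_mul, hLq x hx, one_pow])
      exact ⟨Ab, a1, a2, a3, Or.inl a4⟩
    · obtain ⟨Ab, a1, a2, a3, a4⟩ := exists_Oq_sub (q := m) (fun x hx => m_of_mm h3 hG' hx)
        hCb hL hL1 (by
          intro x hx
          have h4 : p ^ k ∣ m := Nat.Coprime.dvd_of_dvd_mul_left (k := p ^ k) (m := 3) (n := m)
            (Nat.Coprime.pow_left _ ((Nat.coprime_primes hp Nat.prime_three).2 hp3)) hk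
          obtain ⟨c, hc⟩ := h4
          rw [hc, pow_mul, hLq x hx, one_pow])
      exact ⟨Ab, a1, a2, a3, Or.inr a4⟩
  obtain ⟨Ab, a1, a2, a3, a4⟩ := hex
  have hAn : (Ab.comap π ⊓ C).Normal := by
    have : (Ab.comap π).Normal := inferInstance
    exact normal_inf_normal _ _
  have hAP : Ab.comap π ⊓ C ≤ P := by
    refine A_le' h3 hG h2 hP3 hPmax hfin hAn (inf_le_right.trans inf_le_left)
      (inf_le_right.trans inf_le_right) ?_
    rcases a4 with h | h
    · left
      rintro x ⟨hx, -⟩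
      have h1 := h _ hx
      rw [← map_pow] at h1
      exact ((hker _).1 h1).2
    · right
      rintro x ⟨hx, -⟩
      have h1 := h _ hx
      rw [← map_pow] at h1
      exact ((hker _).1 h1).2
  apply a3
  rw [eq_bot_iff]
  intro y hy
  obtain ⟨x, hx, rfl⟩ := a2 hy
  have h1 : x ∈ P := hAP ⟨hy, hx⟩
  rw [mem_bot]
  exact (hker x).2 ⟨hx, h1⟩

end

end Pool.Agent.Helper140_T3
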