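import Pool.Agent.Helper140_T3.Tr

/-!
# Abelian Sylow `2`-subgroups
-/

set_option autoImplicit false

namespace Pool.Agent.Helper140_T3

open Polynomial

universe u v

/-- a group generated by elements of order three with abelian Sylow `2`-subgroups has no factor
group with a central involution -/
theorem tr_two {F : Type u} {H : Type v} [Group F] [Group H] [hF : Finite F] (f : F →* H)
    (hf : Function.Surjective f) (S : Set F) (hS : Subgroup.closure S = ⊤)
    (hS3 : ∀ s ∈ S, s ^ 3 = 1)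
    (hab : ∀ Q : Subgroup F, IsPGroup 2 Q → ∀ x ∈ Q, ∀ y ∈ Q, x * y = y * x)
    (z : H) (hz : z ∈ Subgroup.center H) (hz2 : z ^ 2 = 1) : z = 1 := by
  have hp : Fact (Nat.Prime 2) := ⟨Nat.prime_two⟩
  have hH : Finite H := Finite.of_surjective f hf
  have hzp : IsPGroup 2 (Subgroup.zpowers z) := by
    rintro ⟨_, k, rfl⟩
    refine ⟨1, Subtype.ext ?_⟩
    change (z ^ k) ^ (2 ^ 1) = 1
    rw [pow_one, ← zpow_natCast, ← zpow_mul, mul_comm, zpow_mul, zpow_natCast, hz2, one_zpow]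
  obtain ⟨Q, hQ⟩ := hzp.exists_le_sylow
  have hzQ : z ∈ (Q : Subgroup H) := hQ (Subgroup.mem_zpowers z)
  obtain ⟨P, hP⟩ := Sylow.mapSurjective_surjective hf 2 Q
  have hQP : (Q : Subgroup H) = (P : Subgroup F).map f := by
    rw [← hP]
    rfl
  have hQc : ∀ x y : (Q : Subgroup H), x * y = y * x := by
    rintro ⟨x, hx⟩ ⟨y, hy⟩
    have hx' := hx
    have hy' := hy
    rw [hQP] at hx' hy'
    obtain ⟨x', hx1, hx2⟩ := hx'
    obtain ⟨y', hy1, hy2⟩ := hy'
    apply Subtype.ext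
    change x * y = y * x
    rw [← hx2, ← hy2, ← map_mul, ← map_mul, hab P P.isPGroup' x' hx1 y' hy1]
  let _ : CommGroup (Q : Subgroup H) := { (inferInstance : Group (Q : Subgroup H)) with
    mul_comm := hQc }
  have hfi : (Q : Subgroup H).FiniteIndex := inferInstance
  let t : H →* (Q : Subgroup H) := MonoidHom.transfer (H := (Q : Subgroup H)) (MonoidHom.id _)
  have h1 : t.comp f = 1 := by
    have h2 : Subgroup.closure S ≤ (t.comp f).ker := by
      rw [Subgroup.closure_le]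
      intro s hs
      change t (f s) = 1
      have h3 : t (f s) ^ 3 = 1 := by rw [← map_pow, ← map_pow, hS3 s hs, map_one, map_one]
      obtain ⟨k, hk⟩ := Q.isPGroup' (t (f s))
      have h4 : orderOf (t (f s)) ∣ Nat.gcd 3 (2 ^ k) :=
        Nat.dvd_gcd (orderOf_dvd_of_pow_eq_one h3) (orderOf_dvd_of_pow_eq_one hk)
      have h5 : Nat.gcd 3 (2 ^ k) = 1 := Nat.Coprime.pow_right k (by norm_num)
      rw [h5] at h4
      exact orderOf_eq_one_iff.1 (Nat.dvd_one.1 h4)
    rw [hS] at h2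
    ext x
    exact congrArg Subtype.val (h2 (Subgroup.mem_top x))
  have hkey : ∀ (k : ℕ) (g₀ : H), g₀⁻¹ * z ^ k * g₀ ∈ (Q : Subgroup H) →
      g₀⁻¹ * z ^ k * g₀ = z ^ k := by
    intro k g₀ _
    have h6 := Subgroup.mem_center_iff.1 (Subgroup.pow_mem _ hz k) g₀
    rw [mul_assoc, ← h6, inv_mul_cancel_left]
  have h7 : t z = ⟨z ^ (Q : Subgroup H).index, MonoidHom.transfer_eq_pow_aux z hkey⟩ :=
    MonoidHom.transfer_eq_pow (H := (Q : Subgroup H)) (MonoidHom.id _) z hkey
  obtain ⟨x, rfl⟩ := hf z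
  have h8 : t (f x) = 1 := DFunLike.congr_fun h1 x
  rw [h7] at h8
  have h9 : f x ^ (Q : Subgroup H).index = 1 := congrArg Subtype.val h8
  have h10 : orderOf (f x) ∣ Nat.gcd (Q : Subgroup H).index 2 :=
    Nat.dvd_gcd (orderOf_dvd_of_pow_eq_one h9) (orderOf_dvd_of_pow_eq_one hz2)
  have h11 : Nat.gcd (Q : Subgroup H).index 2 = 1 := by
    have := Q.not_dvd_index
    exact ((Nat.Prime.coprime_iff_not_dvd Nat.prime_two).2 this).symm
  rw [h11] at h10
  exact orderOf_eq_one_iff.1 (Nat.dvd_one.1 h10)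

/-- two elements of order three generate a finite group -/
theorem fin_two {R : Type u} [Ring R] [Algebra (ZMod 3) R] {A B T : R} (hA : A * A = 0)
    (hB : B * B = 0) (hT : T = A * B + B * A) (hTi : IsIntegral (ZMod 3) T) (a b : Rˣ)
    (haA : a.val = 1 + A) (hbB : b.val = 1 + B) :
    Finite (Subgroup.closure ({a, b} : Set Rˣ)) := by
  set U := Algebra.adjoin (ZMod 3) {T} with hU
  have hUf : Finite U := by
    have h1 : Module.Finite (ZMod 3) U := Module.Finite.iff_fg.2 hTi.fg_adjoin_singleton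
    exact Module.finite_of_finite (ZMod 3)
  let Φ : U × U × U × U → R := fun p => p.1 + p.2.1 * A + p.2.2.1 * B + p.2.2.2 * (A * B)
  have hTU : T ∈ U := Algebra.subset_adjoin rfl
  have hW : (Set.range Φ).Finite := Set.finite_range Φ
  have hBA : B * A = T - A * B := by rw [hT]; abel
  have cA : A * T = T * A := comm_A T hA hT
  have hABA : A * B * A = T * A := by
    rw [mul_assoc, hBA, mul_sub, cA, ← mul_assoc A A B, hA, zero_mul, sub_zero]
  have hWA : ∀ y ∈ Set.range Φ, y * A ∈ Set.range Φ := by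
    rintro _ ⟨⟨p, q, r, s⟩, rfl⟩
    refine ⟨⟨r * ⟨T, hTU⟩, p + s * ⟨T, hTU⟩, 0, -r⟩, ?_⟩
    simp only [Φ]
    push_cast
    have e1 : (q : R) * A * A = 0 := by rw [mul_assoc, hA, mul_zero]
    have e2 : (r : R) * B * A = r * T - r * (A * B) := by rw [mul_assoc, hBA, mul_sub]
    have e3 : (s : R) * (A * B) * A = s * (T * A) := by rw [mul_assoc, hABA]
    linear_combination (norm := noncomm_ring) -e1 - e2 - e3
  have hWB : ∀ y ∈ Set.range Φ, y * B ∈ Set.range Φ := by
    rintro _ ⟨⟨p, q, r, s⟩, rfl⟩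
    refine ⟨⟨0, 0, p, q⟩, ?_⟩
    simp only [Φ]
    push_cast
    have e1 : (r : R) * B * B = 0 := by rw [mul_assoc, hB, mul_zero]
    have e2 : (s : R) * (A * B) * B = 0 := by rw [mul_assoc, mul_assoc, hB, mul_zero, mul_zero]
    linear_combination (norm := noncomm_ring) -e1 - e2
  have hWadd : ∀ y ∈ Set.range Φ, ∀ z ∈ Set.range Φ, y + z ∈ Set.range Φ := by
    rintro _ ⟨⟨p, q, r, s⟩, rfl⟩ _ ⟨⟨p', q', r', s'⟩, rfl⟩
    refine ⟨⟨p + p', q + q', r + r', s + s'⟩, ?_⟩
    simp only [Φ]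
    push_cast
    noncomm_ring
  have hWneg : ∀ y ∈ Set.range Φ, -y ∈ Set.range Φ := by
    rintro _ ⟨⟨p, q, r, s⟩, rfl⟩
    refine ⟨⟨-p, -q, -r, -s⟩, ?_⟩
    simp only [Φ]
    push_cast
    noncomm_ring
  have ha' : (a⁻¹).val = 1 - A := by
    apply Units.inv_eq_of_mul_eq_one_right
    rw [haA, add_mul, one_mul, mul_sub, mul_one, hA]
    abel
  have hb' : (b⁻¹).val = 1 - B := by
    apply Units.inv_eq_of_mul_eq_one_right
    rw [hbB, add_mul, one_mul, mul_sub, mul_one, hB]
    abel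
  have key : ∀ g ∈ Subgroup.closure ({a, b} : Set Rˣ), ∀ y ∈ Set.range Φ,
      y * g.val ∈ Set.range Φ ∧ y * (g⁻¹).val ∈ Set.range Φ := by
    intro g hg
    induction hg using Subgroup.closure_induction with
    | mem z hz =>
      intro y hy
      rcases hz with rfl | hz
      · rw [haA, ha', mul_add, mul_sub, mul_one, sub_eq_add_neg]
        exact ⟨hWadd _ hy _ (hWA _ hy), hWadd _ hy _ (hWneg _ (hWA _ hy))⟩
      · rw [Set.mem_singleton_iff] at hz
        subst hz
        rw [hbB, hb', mul_add, mul_sub, mul_one, sub_eq_add_neg]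
        exact ⟨hWadd _ hy _ (hWB _ hy), hWadd _ hy _ (hWneg _ (hWB _ hy))⟩
    | one =>
      intro y hy
      rw [inv_one, Units.val_one, mul_one]
      exact ⟨hy, hy⟩
    | mul z w _ _ hz hw =>
      intro y hy
      rw [mul_inv_rev, Units.val_mul, Units.val_mul, ← mul_assoc, ← mul_assoc]
      exact ⟨(hw _ (hz _ hy).1).1, (hz _ (hw _ hy).2).2⟩
    | inv z _ hz =>
      intro y hy
      rw [inv_inv]
      exact ⟨(hz _ hy).2, (hz _ hy).1⟩
  have h1 : (1 : R) ∈ Set.range Φ := ⟨⟨1, 0, 0, 0⟩, by simp [Φ]⟩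
  have : Finite (Set.range Φ) := hW
  refine Finite.of_injective (fun g : Subgroup.closure ({a, b} : Set Rˣ) =>
    (⟨g.1.val, by
      have := (key g.1 g.2 1 h1).1
      rwa [one_mul] at this⟩ : Set.range Φ)) ?_
  intro g h hgh
  have := congrArg Subtype.val hgh
  exact Subtype.ext (Units.ext this)

end Pool.Agent.Helper140_T3
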