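import Pool.Agent.Helper140_T3.Nl
import Pool.Agent.Helper140_T12.Sp

/-!
# Elements of order three modulo centralisers of normal `3`-subgroups
-/

set_option autoImplicit false

namespace Pool.Agent.Helper140_T3

open Pool.Agent.Helper140_E5 Pool.Agent.Helper140_T12
open Subgroup
open scoped commutatorElement

universe u

section
variable {G : Type u} [Group G] {m : ℕ}

/-- from ninth powers to third powers -/
theorem three_of_nine' (h3 : ¬ 3 ∣ m) (hG : ∀ x : G, x ^ (3 * m) = 1) {C : Subgroup G} {x : G}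
    (hx : x ^ 9 ∈ C) : x ^ 3 ∈ C := by
  have hc : Nat.Coprime 3 m := (Nat.Prime.coprime_iff_not_dvd Nat.prime_three).2 h3
  have e := Nat.gcd_eq_gcd_ab 3 m
  rw [hc] at e
  have e2 : (3 : ℤ) = 9 * Nat.gcdA 3 m + ((3 * m : ℕ) : ℤ) * Nat.gcdB 3 m := by
    push_cast
    push_cast at e
    linear_combination 3 * e
  have e3 : x ^ 3 = (x ^ 9) ^ (Nat.gcdA 3 m) := by
    have h1 : x ^ (3 : ℤ) = x ^ (9 * Nat.gcdA 3 m + ((3 * m : ℕ) : ℤ) * Nat.gcdB 3 m) := by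
      rw [← e2]
    rw [zpow_add, zpow_mul, zpow_mul, zpow_natCast, hG, one_zpow, mul_one] at h1
    exact_mod_cast h1
  rw [e3]
  exact zpow_mem hx _

theorem three_of_nine1 (h3 : ¬ 3 ∣ m) (hG : ∀ x : G, x ^ (3 * m) = 1) {x : G}
    (hx : x ^ 9 = 1) : x ^ 3 = 1 :=
  mem_bot.1 (three_of_nine' h3 hG (C := ⊥) (mem_bot.2 hx))

/-- coprime powers -/
theorem one_of_two {p q : ℕ} (h : Nat.Coprime p q) {x : G} (h1 : x ^ p = 1) (h2 : x ^ q = 1) :
    x = 1 := by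
  have h3 := Nat.dvd_gcd (orderOf_dvd_of_pow_eq_one h1) (orderOf_dvd_of_pow_eq_one h2)
  rw [h] at h3
  exact orderOf_eq_one_iff.1 (Nat.dvd_one.1 h3)

/-- the action on abelian normal subgroups of exponent three -/
theorem ab_quad (h3 : ¬ 3 ∣ m) (hG : ∀ x : G, x ^ (3 * m) = 1) {N : Subgroup G} (hN : N.Normal)
    (hab : ∀ x ∈ N, ∀ y ∈ N, x * y = y * x) (hN3 : ∀ x ∈ N, x ^ 3 = 1) (g : G)
    (hg : g ^ 3 ∈ centralizer (N : Set G)) :
    (cj hN hab g - 1) * (cj hN hab g - 1) = 0 := by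
  have h1 : 1 + cj hN hab g + cj hN hab g * cj hN hab g = 0 := by
    refine AddMonoidHom.ext fun v => tN_inj ?_
    change tN v * (g * tN v * g⁻¹) * (g * (g * tN v * g⁻¹) * g⁻¹) = 1
    set n := tN v with hn
    have hnN : n ∈ N := tN_mem v
    set s := n * (g * n * g⁻¹) * (g * (g * n * g⁻¹) * g⁻¹) with hs
    have hsN : s ∈ N := mul_mem (mul_mem hnN (hN.conj_mem n hnN g))
      (hN.conj_mem _ (hN.conj_mem n hnN g) g)
    have e1 : (n * g) ^ 3 = s * g ^ 3 := by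
      rw [hs]
      simp only [pow_succ, pow_zero, one_mul, mul_assoc, inv_mul_cancel_left]
    have hc : Commute s (g ^ 3) := mem_centralizer_iff.1 hg s hsN
    have e2 : s ^ m = 1 := by
      have h5 := hG (n * g)
      rw [pow_mul, e1, hc.mul_pow, ← pow_mul, hG, mul_one] at h5
      exact h5
    exact one_of_two ((Nat.Prime.coprime_iff_not_dvd Nat.prime_three).2 h3) (hN3 s hsN) e2
  have h2 : (3 : AddMonoid.End (NV N hab)) * cj hN hab g = 0 := by
    refine AddMonoidHom.ext fun v => tN_inj ?_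
    have e : ((3 : AddMonoid.End (NV N hab)) * cj hN hab g) v = (3 : ℕ) • (cj hN hab g v) := rfl
    exact (congrArg tN e).trans (by rw [tN_nsmul, hN3 _ (tN_mem _)]; rfl)
  linear_combination (norm := noncomm_ring) h1 - h2

theorem ab_mul (h3 : ¬ 3 ∣ m) (h4 : ¬ 4 ∣ m) (hG : ∀ x : G, x ^ (3 * m) = 1) {N : Subgroup G}
    (hN : N.Normal) (hab : ∀ x ∈ N, ∀ y ∈ N, x * y = y * x) (hN3 : ∀ x ∈ N, x ^ 3 = 1) {x y : G}
    (hx : x ^ 3 ∈ centralizer (N : Set G)) (hy : y ^ 3 ∈ centralizer (N : Set G)) :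
    (x * y) ^ 3 ∈ centralizer (N : Set G) := by
  have hm : m ≠ 0 := by
    rintro rfl
    exact h3 (dvd_zero 3)
  have h9 : ¬ 9 ∣ 3 * m := by
    intro h
    exact h3 ((Nat.mul_dvd_mul_iff_left (by norm_num : 0 < 3)).1 (by simpa using h))
  have h12 : ¬ 4 ∣ 3 * m := by
    intro h
    exact h4 ((Nat.Coprime.dvd_mul_left (by norm_num : Nat.Coprime 4 3)).1 h)
  rw [← ker_cj hN hab, MonoidHom.mem_ker, map_pow] at hx hy ⊢
  rw [map_mul]
  refine mul_three (R := AddMonoid.End (NV N hab)) ?_ ((cj hN hab).toHomUnits).range (3 * m)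
    (by omega) h12 h9 ?_ ?_ _ _ ⟨x, rfl⟩ ⟨y, rfl⟩ hx hy
  · refine AddMonoidHom.ext fun v => tN_inj ?_
    have e : (3 : AddMonoid.End (NV N hab)) v = (3 : ℕ) • v := rfl
    exact (congrArg tN e).trans (by rw [tN_nsmul, hN3 _ (tN_mem v)]; rfl)
  · rintro _ ⟨g, rfl⟩
    rw [← map_pow, hG, map_one]
  · rintro _ ⟨g, rfl⟩ hg
    refine ab_quad h3 hG hN hab hN3 g ?_
    rw [← ker_cj hN hab, MonoidHom.mem_ker, map_pow]
    exact hg

/-- abelian sections -/
theorem sec_mul (h3 : ¬ 3 ∣ m) (h4 : ¬ 4 ∣ m) (hG : ∀ x : G, x ^ (3 * m) = 1)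
    (M N : Subgroup G) [M.Normal] [hN : N.Normal] (hab : ⁅N, N⁆ ≤ M) (hN3 : ∀ x ∈ N, x ^ 3 ∈ M)
    {x y : G} (hx : x ^ 3 ∈ Cs M N) (hy : y ^ 3 ∈ Cs M N) : (x * y) ^ 3 ∈ Cs M N := by
  set π := QuotientGroup.mk' M with hπ
  have hπs : Function.Surjective π := QuotientGroup.mk'_surjective M
  have h := ab_mul (G := G ⧸ M) h3 h4 (fun x => by
    obtain ⟨g, rfl⟩ := hπs x
    rw [← map_pow, hG, map_one]) (hN.map π hπs) (by
      rintro _ ⟨x, hx, rfl⟩ _ ⟨y, hy, rfl⟩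
      rw [← commutatorElement_eq_one_iff_mul_comm, ← map_commutatorElement]
      exact (QuotientGroup.eq_one_iff _).2 (hab (commutator_mem_commutator hx hy))) (by
      rintro _ ⟨x, hx, rfl⟩
      rw [← map_pow]
      exact (QuotientGroup.eq_one_iff _).2 (hN3 x hx)) (x := π x) (y := π y)
      (by rw [← map_pow]; exact hx) (by rw [← map_pow]; exact hy)
  rw [← map_mul, ← map_pow] at h
  exact h

/-- elements acting trivially on the factors of `N ≥ M ≥ 1` where `M` has exponent three -/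
theorem stab_cube {N M : Subgroup G} (hN : N.Normal) (hM3 : ∀ x ∈ M, x ^ 3 = 1) {g : G}
    (g1 : ∀ n ∈ N, n⁻¹ * (g * n * g⁻¹) ∈ M) (g2 : g ∈ centralizer (M : Set G)) :
    g ^ 3 ∈ centralizer (N : Set G) := by
  rw [mem_centralizer_iff] at g2 ⊢
  intro n hn
  set a := n⁻¹ * (g * n * g⁻¹) with ha
  have ha1 : a ∈ M := g1 n hn
  have e1 : g * n * g⁻¹ = n * a := by rw [ha]; group
  have e2 : g * a * g⁻¹ = a := by rw [← g2 a ha1, mul_inv_cancel_right]
  have e3 : g ^ 3 * n * (g ^ 3)⁻¹ = n * a ^ 3 := by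
    have f1 : g * (n * a) * g⁻¹ = n * a * a := by
      calc g * (n * a) * g⁻¹ = (g * n * g⁻¹) * (g * a * g⁻¹) := by group
        _ = n * a * a := by rw [e1, e2]
    have f2 : g * (n * a * a) * g⁻¹ = n * a * a * a := by
      calc g * (n * a * a) * g⁻¹ = (g * n * g⁻¹) * (g * a * g⁻¹) * (g * a * g⁻¹) := by group
        _ = n * a * a * a := by rw [e1, e2]
    calc g ^ 3 * n * (g ^ 3)⁻¹ = g * (g * (g * n * g⁻¹) * g⁻¹) * g⁻¹ := by
          simp only [pow_succ, pow_zero, one_mul, mul_inv_rev, mul_assoc]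
      _ = n * a * a * a := by rw [e1, f1, f2]
      _ = n * a ^ 3 := by simp only [pow_succ, pow_zero, one_mul, mul_assoc]
  rw [hM3 a ha1, mul_one] at e3
  exact (mul_inv_eq_iff_eq_mul.1 e3).symm

/-- normal subgroups of exponent three -/
theorem p3_mul (h3 : ¬ 3 ∣ m) (h4 : ¬ 4 ∣ m) (hG : ∀ x : G, x ^ (3 * m) = 1) {P : Subgroup G}
    (hP : P.Normal) (hP3 : ∀ x ∈ P, x ^ 3 = 1) {x y : G}
    (hx : x ^ 3 ∈ centralizer (P : Set G)) (hy : y ^ 3 ∈ centralizer (P : Set G)) :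
    (x * y) ^ 3 ∈ centralizer (P : Set G) := by
  have hD : (⁅P, P⁆ : Subgroup G).Normal := commutator_normal _ _
  have hDP : (⁅P, P⁆ : Subgroup G) ≤ P := comm_self_le P
  have hds : ds P 2 = ⊥ := exists_ds 2 (meta3 fun x : P => Subtype.ext (hP3 x x.2))
  have hD3 : ∀ z ∈ (⁅P, P⁆ : Subgroup G), z ^ 3 = 1 := fun z hz => hP3 z (hDP hz)
  have hcs : ∀ g ∈ centralizer (P : Set G), g ∈ Cs ⁅P, P⁆ P := by
    intro g hg
    rw [mem_Cs]
    intro n hn
    have h5 := mem_centralizer_iff.1 hg n hn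
    have h6 : ⁅n, g⁆ = 1 := by
      rw [commutatorElement_eq_one_iff_mul_comm]
      exact h5
    rw [h6]
    exact one_mem _
  have hcD : centralizer (P : Set G) ≤ centralizer ((⁅P, P⁆ : Subgroup G) : Set G) :=
    centralizer_le hDP
  have s1 := sec_mul h3 h4 hG ⁅P, P⁆ P le_rfl (fun z hz => by rw [hP3 z hz]; exact one_mem _)
    (hcs _ hx) (hcs _ hy)
  have s2 := ab_mul h3 h4 hG hD (by
    intro u hu v hv
    have h5 : ⁅u, v⁆ ∈ (⊥ : Subgroup G) := by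
      rw [← hds]
      exact commutator_mem_commutator hu hv
    exact commutatorElement_eq_one_iff_mul_comm.1 (mem_bot.1 h5)) hD3 (hcD hx) (hcD hy)
  refine three_of_nine' h3 hG ?_
  have e : (x * y) ^ 9 = ((x * y) ^ 3) ^ 3 := by rw [← pow_mul]
  rw [e]
  refine stab_cube hP hD3 (fun n hn => ?_) s2
  have h5 := mem_Cs.1 s1 n⁻¹ (inv_mem hn)
  rw [commutatorElement_def, inv_inv] at h5
  have e2 : n⁻¹ * ((x * y) ^ 3 * n * ((x * y) ^ 3)⁻¹) = n⁻¹ * (x * y) ^ 3 * n * ((x * y) ^ 3)⁻¹ := by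
    group
  rw [e2]
  exact h5

/-- normal subgroups `N` with `C_N(P) ≤ P` -/
theorem core_mul (h3 : ¬ 3 ∣ m) (h4 : ¬ 4 ∣ m) (hG : ∀ x : G, x ^ (3 * m) = 1)
    {N P : Subgroup G} (hN : N.Normal) (hP : P.Normal) (hPN : P ≤ N) (hP3 : ∀ x ∈ P, x ^ 3 = 1)
    (hc : N ⊓ centralizer (P : Set G) ≤ P) {x y : G}
    (hx : x ^ 3 ∈ centralizer (N : Set G)) (hy : y ^ 3 ∈ centralizer (N : Set G)) :
    (x * y) ^ 3 ∈ centralizer (N : Set G) := by
  have hle : centralizer (N : Set G) ≤ centralizer (P : Set G) := centralizer_le hPN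
  have s1 := p3_mul h3 h4 hG hP hP3 (hle hx) (hle hy)
  have hCn : (centralizer (P : Set G)).Normal := inferInstance
  refine three_of_nine' h3 hG ?_
  have e : (x * y) ^ 9 = ((x * y) ^ 3) ^ 3 := by rw [← pow_mul]
  rw [e]
  refine stab_cube (M := N ⊓ centralizer (P : Set G)) hN (fun z hz => hP3 z (hc hz)) ?_ ?_
  · intro n hn
    refine mem_inf.2 ⟨mul_mem (inv_mem hn) (hN.conj_mem n hn _), ?_⟩
    · have h5 := hCn.conj_mem _ s1 n⁻¹
      rw [inv_inv] at h5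
      have e2 : n⁻¹ * ((x * y) ^ 3 * n * ((x * y) ^ 3)⁻¹)
          = n⁻¹ * (x * y) ^ 3 * n * ((x * y) ^ 3)⁻¹ := by group
      have h6 : n⁻¹ * (x * y) ^ 3 * n * ((x * y) ^ 3)⁻¹ ∈ centralizer (P : Set G) :=
        mul_mem h5 (inv_mem s1)
      rw [← e2] at h6
      exact h6
  · rw [mem_centralizer_iff]
    intro z hz
    exact mem_centralizer_iff.1 s1 z (hc hz)

end

end Pool.Agent.Helper140_T3
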