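import Pool.Agent.Helper140_T3.Tr

/-!
# Nilpotency, and products of elements of order three
-/

set_option autoImplicit false

namespace Pool.Agent.Helper140_T3

open Matrix Polynomial

universe u

theorem nilp {R : Type u} [Ring R] (h3 : (3 : R) = 0) (G : Subgroup Rˣ) (n : ℕ) (hn0 : 0 < n)
    (h4 : ¬ 4 ∣ n) (hn : ∀ g ∈ G, g ^ n = 1) (a b : Rˣ) (haG : a ∈ G) (hbG : b ∈ G) {A B : R}
    (haA : a.val = 1 + A) (hbB : b.val = 1 + B) (hA : A * A = 0) (hB : B * B = 0) :
    ∃ k : ℕ, (A * B + B * A) ^ k = 0 := by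
  rcases subsingleton_or_nontrivial R with hR | hR
  · exact ⟨0, Subsingleton.elim _ _⟩
  have : CharP R 3 := charP3 R h3
  letI : Algebra (ZMod 3) R := ZMod.algebra R 3
  obtain ⟨T, hT⟩ : ∃ T, T = A * B + B * A := ⟨_, rfl⟩
  rw [← hT]
  have hTi : IsIntegral (ZMod 3) T := by
    have hc : IsIntegral (ZMod 3) (a * b : Rˣ).val := by
      refine ⟨X ^ n - C 1, monic_X_pow_sub_C 1 hn0.ne', ?_⟩
      rw [← aeval_def, map_sub, map_pow, aeval_X, aeval_C, map_one, ← Units.val_pow_eq_pow_val,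
        hn _ (mul_mem haG hbG), Units.val_one, sub_self]
    refine IsIntegral.of_mem_of_fg (Algebra.adjoin (ZMod 3) {(a * b : Rˣ).val})
      hc.fg_adjoin_singleton T ?_
    have hmem : (a * b : Rˣ).val ∈ Algebra.adjoin (ZMod 3) {(a * b : Rˣ).val} :=
      Algebra.subset_adjoin rfl
    have hinv : ((a * b : Rˣ)⁻¹).val = (a * b : Rˣ).val ^ (n - 1) := by
      have h1 : (a * b : Rˣ)⁻¹ = (a * b) ^ (n - 1) := by
        apply inv_eq_of_mul_eq_one_left
        rw [← pow_succ, Nat.sub_add_cancel hn0]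
        exact hn _ (mul_mem haG hbG)
      rw [h1, Units.val_pow_eq_pow_val]
    have ha' : (a⁻¹).val = 1 - A := by
      apply Units.inv_eq_of_mul_eq_one_right
      rw [haA, add_mul, one_mul, mul_sub, mul_one, hA]
      abel
    have hb' : (b⁻¹).val = 1 - B := by
      apply Units.inv_eq_of_mul_eq_one_right
      rw [hbB, add_mul, one_mul, mul_sub, mul_one, hB]
      abel
    have e1 : T = (a * b : Rˣ).val + ((a * b : Rˣ)⁻¹).val + 1 := by
      rw [_root_.mul_inv_rev, Units.val_mul, Units.val_mul, haA, hbB, ha', hb', hT]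
      have h3' : (1 : R) + 1 + 1 = 0 := by
        rw [← h3]
        norm_num
      linear_combination (norm := noncomm_ring) -h3'
    rw [e1, hinv]
    exact add_mem (add_mem hmem (pow_mem hmem _)) (one_mem _)
  have hμ0 := minpoly.ne_zero hTi
  have hμT := minpoly.aeval (ZMod 3) T
  obtain ⟨q, hq, hXq⟩ := exists_eq_pow_rootMultiplicity_mul_and_not_dvd _ hμ0 0
  rw [C_0, sub_zero] at hq hXq
  set k := rootMultiplicity 0 (minpoly (ZMod 3) T) with hk
  by_cases hqu : IsUnit q
  · refine ⟨k, ?_⟩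
    rw [hq, map_mul, map_pow, aeval_X] at hμT
    exact (hqu.map (aeval T)).mul_left_eq_zero.1 hμT
  · exfalso
    apply h4
    have hq0 : q ≠ 0 := by
      rintro rfl
      exact hXq (dvd_zero _)
    obtain ⟨p, hp, s, hs⟩ := WfDvdMonoid.exists_irreducible_factor hqu hq0
    set r := X ^ k * s with hr
    have hμ : minpoly (ZMod 3) T = p * r := by
      rw [hq, hs, hr]
      ring
    have hr0 : r ≠ 0 := by
      intro h
      rw [hμ, h, mul_zero] at hμ0
      exact hμ0 rfl
    have hpx : aeval T p * aeval T r = 0 := by rw [← map_mul, ← hμ, hμT]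
    refine four_dvd T (aeval T r) p hp hpx ?_ ?_ G n hn a b haG hbG haA hbB hA hB hT
      (comm_aeval (comm_A T hA hT) r) (comm_aeval (comm_B T hB hT) r)
    · intro f hf
      obtain ⟨g, rfl⟩ := AdjoinRoot.mk_surjective f
      rw [ee_mk T _ p hpx, ← map_mul] at hf
      have h5 := minpoly.dvd (ZMod 3) T hf
      rw [hμ] at h5
      exact AdjoinRoot.mk_eq_zero.2 ((mul_dvd_mul_iff_right hr0).1 h5)
    · intro h
      rw [← AdjoinRoot.mk_X, AdjoinRoot.mk_eq_zero] at h
      have h5 := hp.associated_of_dvd irreducible_X h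
      exact hXq (h5.symm.dvd.trans ⟨s, hs⟩)

theorem comm_A' {R : Type u} [Ring R] {A B T : R} (hA : A * A = 0) (hT : T = A * B + B * A) :
    A * T = T * A := by
  rw [hT, mul_add, add_mul, ← mul_assoc, hA, zero_mul, zero_add, mul_assoc B A A, hA, mul_zero,
    add_zero, mul_assoc]

theorem comm_B' {R : Type u} [Ring R] {A B T : R} (hB : B * B = 0) (hT : T = A * B + B * A) :
    B * T = T * B := by
  rw [hT, mul_add, add_mul, ← mul_assoc B B A, hB, zero_mul, add_zero, mul_assoc A B B, hB,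
    mul_zero, zero_add, mul_assoc]

/-- Products of elements of order dividing three. -/
theorem mul_three {R : Type u} [Ring R] (h3 : (3 : R) = 0) (G : Subgroup Rˣ) (n : ℕ)
    (hn0 : 0 < n) (h4 : ¬ 4 ∣ n) (h9 : ¬ 9 ∣ n) (hn : ∀ g ∈ G, g ^ n = 1)
    (hq : ∀ g ∈ G, g ^ 3 = 1 → (g.val - 1) * (g.val - 1) = 0) (a b : Rˣ) (haG : a ∈ G)
    (hbG : b ∈ G) (ha : a ^ 3 = 1) (hb : b ^ 3 = 1) : (a * b) ^ 3 = 1 := by
  have hA := hq a haG ha
  have hB := hq b hbG hb
  set A := a.val - 1 with hAd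
  set B := b.val - 1 with hBd
  have haA : a.val = 1 + A := by rw [hAd]; abel
  have hbB : b.val = 1 + B := by rw [hBd]; abel
  obtain ⟨k, hk⟩ := nilp h3 G n hn0 h4 hn a b haG hbG haA hbB hA hB
  obtain ⟨T, hT⟩ : ∃ T, T = A * B + B * A := ⟨_, rfl⟩
  rw [← hT] at hk
  have cA := comm_A' hA hT
  have cB := comm_B' hB hT
  set c := a * b with hc
  have ec : c.val = 1 + A + B + A * B := by
    rw [hc, Units.val_mul, haA, hbB]
    noncomm_ring
  have cc : c.val * T = T * c.val := by
    rw [ec]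
    simp only [add_mul, mul_add, one_mul, mul_one]
    rw [cA, cB, mul_assoc, cB, ← mul_assoc, cA, mul_assoc]
  have e1 : (c.val - 1) * (c.val - 1) = T * c.val := by
    rw [ec, hT]
    linear_combination (norm := noncomm_ring) hA + hA * B + hB - B * hA - B * hA * B
  have e2 : (c.val - 1) ^ (2 * k) = 0 := by
    rw [pow_mul, sq, e1]
    have cc' : Commute T c.val := cc.symm
    rw [cc'.mul_pow, hk, zero_mul]
  rcases subsingleton_or_nontrivial R with hR | hR
  · exact Units.ext (Subsingleton.elim _ _)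
  have : CharP R 3 := charP3 R h3
  have : Fact (Nat.Prime 3) := ⟨Nat.prime_three⟩
  have e3 : c ^ 3 ^ (2 * k) = 1 := by
    apply Units.ext
    rw [Units.val_pow_eq_pow_val, Units.val_one]
    have h5 := sub_pow_char_pow_of_commute (p := 3) (n := 2 * k) (Commute.one_right c.val)
    have h6 : 2 * k ≤ 3 ^ (2 * k) := (Nat.lt_pow_self (by norm_num)).le
    rw [← Nat.sub_add_cancel h6, pow_add, e2, mul_zero, Nat.sub_add_cancel h6, one_pow] at h5
    exact sub_eq_zero.1 h5.symm
  have e4 := orderOf_dvd_of_pow_eq_one e3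
  obtain ⟨i, -, hi⟩ := (Nat.dvd_prime_pow Nat.prime_three).1 e4
  have e5 := orderOf_dvd_of_pow_eq_one (hn c (mul_mem haG hbG))
  have e6 : i ≤ 1 := by
    by_contra hcon
    push Not at hcon
    apply h9
    rw [hi] at e5
    exact (pow_dvd_pow 3 hcon).trans e5
  apply orderOf_dvd_iff_pow_eq_one.1
  rw [hi]
  exact (pow_dvd_pow 3 e6).trans (by norm_num)

end Pool.Agent.Helper140_T3
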