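import Pool.Agent.Helper140_T3.Tr2
import Pool.Agent.Helper140_T3.Nl
import Pool.Agent.Helper140_T3.Gr

/-!
# Products of elements of order three, finite `2`-subgroups abelian
-/

set_option autoImplicit false

namespace Pool.Agent.Helper140_T3

open Pool.Agent.Helper140_E5 Pool.Agent.Helper140_T12
open Subgroup
open scoped commutatorElement

universe u v

/-- the finite `2`-subgroups are abelian -/
def TwoAb (G : Type u) [Group G] : Prop :=
  ∀ Q : Subgroup G, Finite Q → IsPGroup 2 Q → ∀ x ∈ Q, ∀ y ∈ Q, x * y = y * x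

/-- Products of elements of order dividing three. -/
theorem mul_three2 {R : Type u} [Ring R] (h3 : (3 : R) = 0) (G : Subgroup Rˣ) (n : ℕ)
    (hn0 : 0 < n)
    (hab : ∀ Q : Subgroup Rˣ, Q ≤ G → Finite Q → IsPGroup 2 Q → ∀ x ∈ Q, ∀ y ∈ Q, x * y = y * x)
    (h9 : ¬ 9 ∣ n) (hn : ∀ g ∈ G, g ^ n = 1)
    (hq : ∀ g ∈ G, g ^ 3 = 1 → (g.val - 1) * (g.val - 1) = 0) (a b : Rˣ) (haG : a ∈ G)
    (hbG : b ∈ G) (ha : a ^ 3 = 1) (hb : b ^ 3 = 1) : (a * b) ^ 3 = 1 := by
  have hA := hq a haG ha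
  have hB := hq b hbG hb
  set A := a.val - 1 with hAd
  set B := b.val - 1 with hBd
  have haA : a.val = 1 + A := by rw [hAd]; abel
  have hbB : b.val = 1 + B := by rw [hBd]; abel
  obtain ⟨k, hk⟩ := nilp2 h3 G n hn0 hab hn a b haG hbG ha hb haA hbB hA hB
  obtain ⟨T, hT⟩ : ∃ T, T = A * B + B * A := ⟨_, rfl⟩
  rw [← hT] at hk
  have cA := comm_A' hA hT
  have cB := comm_B' hB hT
  set c := a * b with hc
  have ec : c.val = 1 + A + B + A * B := by
    rw [hc, Units.val_mul, haA, hbB]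
    noncomm_ring
  have cc : c.val * T = T * c.val := by
    rw [ec]
    simp only [add_mul, mul_add, one_mul, mul_one]
    rw [cA, cB, mul_assoc, cB, ← mul_assoc, cA, mul_assoc]
  have e1 : (c.val - 1) * (c.val - 1) = T * c.val := by
    rw [ec, hT]
    linear_combination (norm := noncomm_ring) hA + hA * B + hB - B * hA - B * hA * B
  have e2 : (c.val - 1) ^ (2 * k) = 0 := by
    rw [pow_mul, sq, e1]
    have cc' : Commute T c.val := cc.symm
    rw [cc'.mul_pow, hk, zero_mul]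
  rcases subsingleton_or_nontrivial R with hR | hR
  · exact Units.ext (Subsingleton.elim _ _)
  have : CharP R 3 := charP3 R h3
  have : Fact (Nat.Prime 3) := ⟨Nat.prime_three⟩
  have e3 : c ^ 3 ^ (2 * k) = 1 := by
    apply Units.ext
    rw [Units.val_pow_eq_pow_val, Units.val_one]
    have h5 := sub_pow_char_pow_of_commute (p := 3) (n := 2 * k) (Commute.one_right c.val)
    have h6 : 2 * k ≤ 3 ^ (2 * k) := (Nat.lt_pow_self (by norm_num)).le
    rw [← Nat.sub_add_cancel h6, pow_add, e2, mul_zero, Nat.sub_add_cancel h6, one_pow] at h5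
    exact sub_eq_zero.1 h5.symm
  have e4 := orderOf_dvd_of_pow_eq_one e3
  obtain ⟨i, -, hi⟩ := (Nat.dvd_prime_pow Nat.prime_three).1 e4
  have e5 := orderOf_dvd_of_pow_eq_one (hn c (mul_mem haG hbG))
  have e6 : i ≤ 1 := by
    by_contra hcon
    push Not at hcon
    apply h9
    rw [hi] at e5
    exact (pow_dvd_pow 3 hcon).trans e5
  apply orderOf_dvd_iff_pow_eq_one.1
  rw [hi]
  exact (pow_dvd_pow 3 e6).trans (by norm_num)

theorem lfin_finite {Q : Type u} [Group Q] (h : Finite Q) : LFin Q := fun _ _ => inferInstance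

/-- finite `2`-subgroups lift modulo normal subgroups of exponent three -/
theorem lift_ab {E : Type u} {K : Type v} [Group E] [Group K] (f : E →* K)
    (hf : Function.Surjective f) (hk : ∀ x ∈ f.ker, x ^ 3 = 1) (hE : TwoAb E) : TwoAb K := by
  intro Q hQf hQ
  have hp : Fact (Nat.Prime 2) := ⟨Nat.prime_two⟩
  set M := Q.comap f with hM
  have hlf : LFin M := by
    refine schmidt (f.comp M.subtype) ?_ ?_
    · have h1 : ∀ x : (f.comp M.subtype).ker, x ^ 3 = 1 := fun x =>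
        Subtype.ext (Subtype.ext (hk x.1.1 x.2))
      exact lf_soluble (n := 3) (by norm_num) 2 _ (meta3 h1) h1
    · have h1 : (f.comp M.subtype).range ≤ Q := by
        rintro _ ⟨x, rfl⟩
        exact x.2
      exact LFin.inj (Subgroup.inclusion h1) (Subgroup.inclusion_injective _) (lfin_finite hQf)
  choose s hs using hf
  set S : Set E := s '' (Q : Set K) with hS
  have hSf : S.Finite := by
    have : Finite (Q : Set K) := hQf
    exact Set.Finite.image s this
  have hSM : ∀ x ∈ S, x ∈ M := by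
    rintro _ ⟨y, hy, rfl⟩
    change f (s y) ∈ Q
    rw [hs]
    exact hy
  have hFf : Finite (closure S) := lf_cl hlf hSf hSM
  have hFQ : (closure S).map f = Q := by
    apply le_antisymm
    · rw [map_le_iff_le_comap, closure_le]
      exact hSM
    · intro y hy
      exact ⟨s y, subset_closure ⟨y, hy, rfl⟩, hs y⟩
  let g := f.subgroupMap (closure S)
  have hg : Function.Surjective g := f.subgroupMap_surjective (closure S)
  have hQ' : IsPGroup 2 ((closure S).map f) := by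
    rw [hFQ]
    exact hQ
  obtain ⟨P⟩ : Nonempty (Sylow 2 (closure S)) := Sylow.nonempty
  have hPt : (P : Subgroup (closure S)).map g = ⊤ := by
    have h1 : ((P.mapSurjective hg : Sylow 2 ((closure S).map f)) :
        Subgroup ((closure S).map f)) = ⊤ := by
      refine ((P.mapSurjective hg).is_maximal' (Q := ⊤) ?_ le_top).symm
      exact hQ'.to_subgroup ⊤
    exact h1
  have hlift : ∀ x ∈ Q, ∃ w ∈ (P : Subgroup (closure S)), f w.1 = x := by
    intro x hx
    rw [← hFQ] at hx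
    have h1 : (⟨x, hx⟩ : (closure S).map f) ∈ (P : Subgroup (closure S)).map g := by
      rw [hPt]
      exact mem_top _
    obtain ⟨w, hw, hwx⟩ := h1
    exact ⟨w, hw, congrArg Subtype.val hwx⟩
  intro x hx y hy
  obtain ⟨x', hx1, rfl⟩ := hlift x hx
  obtain ⟨y', hy1, rfl⟩ := hlift y hy
  have h1 := hE ((P : Subgroup (closure S)).map (closure S).subtype)
    (Finite.of_surjective _ (MonoidHom.subgroupMap_surjective _ _)) (P.isPGroup'.map _)
    x'.1 ⟨x', hx1, rfl⟩ y'.1 ⟨y', hy1, rfl⟩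
  rw [← map_mul, ← map_mul, h1]

section
variable {G : Type u} [Group G] {m : ℕ}

/-- the general step, for an action on a ring -/
theorem ring_mul {R : Type v} [Ring R] (hR : (3 : R) = 0) (θ : G →* Rˣ) (h3 : ¬ 3 ∣ m)
    (hG : ∀ x : G, x ^ (3 * m) = 1)
    (hq : ∀ g, θ g ^ 3 = 1 → ((θ g).val - 1) * ((θ g).val - 1) = 0) (hab : TwoAb θ.range)
    {x y : G} (hx : θ x ^ 3 = 1) (hy : θ y ^ 3 = 1) : θ (x * y) ^ 3 = 1 := by
  have hm : m ≠ 0 := by
    rintro rfl
    exact h3 (dvd_zero 3)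
  have h9 : ¬ 9 ∣ 3 * m := by
    intro h
    exact h3 ((Nat.mul_dvd_mul_iff_left (by norm_num : 0 < 3)).1 (by simpa using h))
  rw [map_mul]
  refine mul_three2 hR θ.range (3 * m) (by omega) ?_ h9 ?_ ?_ _ _ ⟨x, rfl⟩ ⟨y, rfl⟩ hx hy
  · intro Q hQ hQf hQ2 u hu v hv
    have h1 : Finite (Q.subgroupOf θ.range) :=
      Finite.of_injective (subgroupOfEquivOfLe hQ) (subgroupOfEquivOfLe hQ).injective
    have h2 := hab (Q.subgroupOf θ.range) h1 (hQ2.of_equiv (subgroupOfEquivOfLe hQ).symm)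
      ⟨u, hQ hu⟩ hu ⟨v, hQ hv⟩ hv
    exact congrArg Subtype.val h2
  · rintro _ ⟨g, rfl⟩
    rw [← map_pow, hG, map_one]
  · rintro _ ⟨g, rfl⟩ hg
    exact hq g hg

/-- normal subgroups `N` with `C_N(P) ≤ P` -/
theorem core_mul2 (h3 : ¬ 3 ∣ m) (hG : ∀ x : G, x ^ (3 * m) = 1)
    {N P : Subgroup G} [hN : N.Normal] (hP : P.Normal) (hPN : P ≤ N)
    (hP3 : ∀ x ∈ P, x ^ 3 = 1) (hc : N ⊓ centralizer (P : Set G) ≤ P)
    (hab : TwoAb (G ⧸ centralizer (N : Set G))) {x y : G}
    (hx : x ^ 3 ∈ centralizer (N : Set G)) (hy : y ^ 3 ∈ centralizer (N : Set G)) :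
    (x * y) ^ 3 ∈ centralizer (N : Set G) := by
  have hle : centralizer (N : Set G) ≤ centralizer (P : Set G) := centralizer_le hPN
  have hD : (⁅P, P⁆ : Subgroup G).Normal := commutator_normal _ _
  have hDP : (⁅P, P⁆ : Subgroup G) ≤ P := comm_self_le P
  have hds : ds P 2 = ⊥ := exists_ds 2 (meta3 fun x : P => Subtype.ext (hP3 x x.2))
  have hD3 : ∀ z ∈ (⁅P, P⁆ : Subgroup G), z ^ 3 = 1 := fun z hz => hP3 z (hDP hz)
  have hDab : ∀ x ∈ (⁅P, P⁆ : Subgroup G), ∀ y ∈ (⁅P, P⁆ : Subgroup G), x * y = y * x := by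
    intro u hu v hv
    have h5 : ⁅u, v⁆ ∈ (⊥ : Subgroup G) := by
      rw [← hds]
      exact commutator_mem_commutator hu hv
    exact commutatorElement_eq_one_iff_mul_comm.1 (mem_bot.1 h5)
  set π := QuotientGroup.mk' ⁅P, P⁆ with hπ
  have hπs : Function.Surjective π := QuotientGroup.mk'_surjective _
  have hG' : ∀ x : G ⧸ (⁅P, P⁆ : Subgroup G), x ^ (3 * m) = 1 := fun x => by
    obtain ⟨g, rfl⟩ := hπs x
    rw [← map_pow, hG, map_one]
  have hP' : (P.map π).Normal := hP.map π hπs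
  have hPab : ∀ x ∈ P.map π, ∀ y ∈ P.map π, x * y = y * x := by
    rintro _ ⟨x, hx, rfl⟩ _ ⟨y, hy, rfl⟩
    rw [← commutatorElement_eq_one_iff_mul_comm, ← map_commutatorElement]
    exact (QuotientGroup.eq_one_iff _).2 (commutator_mem_commutator hx hy)
  have hP3' : ∀ x ∈ P.map π, x ^ 3 = 1 := by
    rintro _ ⟨x, hx, rfl⟩
    rw [← map_pow, hP3 x hx, map_one]
  let c1 := (cj hP' hPab).comp π
  let c2 := cj hD hDab
  let θ := (c1.prod c2).toHomUnits
  have hθ : ∀ g, (θ g).val = (c1 g, c2 g) := fun g => rfl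
  have hk1 : ∀ g, c1 g = 1 ↔ g ∈ Cs ⁅P, P⁆ P := by
    intro g
    have h1 : π g ∈ (cj hP' hPab).toHomUnits.ker ↔
        π g ∈ centralizer ((P.map π : Subgroup _) : Set _) := by
      rw [ker_cj]
    rw [MonoidHom.mem_ker, Units.ext_iff] at h1
    exact h1
  have hk2 : ∀ g, c2 g = 1 ↔ g ∈ centralizer ((⁅P, P⁆ : Subgroup G) : Set G) := by
    intro g
    have h1 : g ∈ (cj hD hDab).toHomUnits.ker ↔
        g ∈ centralizer ((⁅P, P⁆ : Subgroup G) : Set G) := by
      rw [ker_cj]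
    rw [MonoidHom.mem_ker, Units.ext_iff] at h1
    exact h1
  have hθ1 : ∀ g, θ g = 1 ↔ g ∈ Cs ⁅P, P⁆ P ∧
      g ∈ centralizer ((⁅P, P⁆ : Subgroup G) : Set G) := by
    intro g
    rw [← hk1, ← hk2, Units.ext_iff, hθ, Units.val_one, Prod.ext_iff]
    rfl
  have hcs : ∀ g ∈ centralizer (P : Set G), g ∈ Cs ⁅P, P⁆ P := by
    intro g hg
    rw [mem_Cs]
    intro n hn
    have h5 := mem_centralizer_iff.1 hg n hn
    have h6 : ⁅n, g⁆ = 1 := by
      rw [commutatorElement_eq_one_iff_mul_comm]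
      exact h5
    rw [h6]
    exact one_mem _
  have hcD : centralizer (P : Set G) ≤ centralizer ((⁅P, P⁆ : Subgroup G) : Set G) :=
    centralizer_le hDP
  -- the kernel
  have hkP : ∀ g, θ g = 1 → g ^ 3 ∈ centralizer (P : Set G) := by
    intro g hg
    obtain ⟨s1, s2⟩ := (hθ1 g).1 hg
    refine stab_cube hP hD3 (fun n hn => ?_) s2
    have h5 := mem_Cs.1 s1 n⁻¹ (inv_mem hn)
    rw [commutatorElement_def, inv_inv] at h5
    have e2 : n⁻¹ * (g * n * g⁻¹) = n⁻¹ * g * n * g⁻¹ := by group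
    rw [e2]
    exact h5
  have hCn : (centralizer (P : Set G)).Normal := inferInstance
  have hkN : ∀ g ∈ centralizer (P : Set G), g ^ 3 ∈ centralizer (N : Set G) := by
    intro g hg
    refine stab_cube (M := N ⊓ centralizer (P : Set G)) hN (fun z hz => hP3 z (hc hz)) ?_ ?_
    · intro n hn
      refine mem_inf.2 ⟨mul_mem (inv_mem hn) (hN.conj_mem n hn _), ?_⟩
      have h5 := hCn.conj_mem _ hg n⁻¹
      rw [inv_inv] at h5
      have e2 : n⁻¹ * (g * n * g⁻¹) = n⁻¹ * g * n * g⁻¹ := by group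
      rw [e2]
      exact mul_mem h5 (inv_mem hg)
    · rw [mem_centralizer_iff]
      intro z hz
      exact mem_centralizer_iff.1 hg z (hc hz)
  have hker : ∀ g, θ g = 1 → g ^ 3 ∈ centralizer (N : Set G) := by
    intro g hg
    refine three_of_nine' h3 hG ?_
    have e : g ^ 9 = (g ^ 3) ^ 3 := by rw [← pow_mul]
    rw [e]
    exact hkN _ (hkP g hg)
  have hCθ : ∀ g ∈ centralizer (N : Set G), θ g = 1 := fun g hg =>
    (hθ1 g).2 ⟨hcs g (hle hg), hcD (hle hg)⟩
  -- the `2`-subgroups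
  have hab' : TwoAb θ.range := by
    refine lift_ab (QuotientGroup.lift (centralizer (N : Set G)) θ.rangeRestrict
      (fun g hg => Subtype.ext (hCθ g hg))) ?_ ?_ hab
    · rintro ⟨_, g, rfl⟩
      exact ⟨QuotientGroup.mk g, rfl⟩
    · intro x hx
      obtain ⟨g, rfl⟩ := QuotientGroup.mk_surjective x
      have h1 : θ g = 1 := congrArg Subtype.val (hx : θ.rangeRestrict g = 1)
      rw [← QuotientGroup.mk_pow]
      exact (QuotientGroup.eq_one_iff _).2 (hker g h1)
  have hR : (3 : AddMonoid.End (NV (P.map π) hPab) × AddMonoid.End (NV ⁅P, P⁆ hDab)) = 0 := by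
    refine Prod.ext (AddMonoidHom.ext fun v => tN_inj ?_) (AddMonoidHom.ext fun v => tN_inj ?_)
    · have e : (3 : AddMonoid.End (NV (P.map π) hPab)) v = (3 : ℕ) • v := rfl
      exact (congrArg tN e).trans (by rw [tN_nsmul, hP3' _ (tN_mem v)]; rfl)
    · have e : (3 : AddMonoid.End (NV ⁅P, P⁆ hDab)) v = (3 : ℕ) • v := rfl
      exact (congrArg tN e).trans (by rw [tN_nsmul, hD3 _ (tN_mem v)]; rfl)
  have hq : ∀ g, θ g ^ 3 = 1 → ((θ g).val - 1) * ((θ g).val - 1) = 0 := by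
    intro g hg
    rw [← map_pow] at hg
    obtain ⟨s1, s2⟩ := (hθ1 _).1 hg
    rw [hθ]
    refine Prod.ext ?_ ?_
    · exact ab_quad h3 hG' hP' hPab hP3' (π g) (by rw [← map_pow]; exact s1)
    · exact ab_quad h3 hG hD hDab hD3 g s2
  have h5 := ring_mul hR θ h3 hG hq hab' (x := x) (y := y) (by rw [← map_pow]; exact hCθ _ hx)
    (by rw [← map_pow]; exact hCθ _ hy)
  rw [← map_pow] at h5
  refine three_of_nine' h3 hG ?_
  have e : (x * y) ^ 9 = ((x * y) ^ 3) ^ 3 := by rw [← pow_mul]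
  rw [e]
  exact hker _ h5

end

end Pool.Agent.Helper140_T3
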