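import Pool.Agent.Helper140_T3.Gr2

/-!
# Two elements of order three modulo the centraliser generate a finite group
-/

set_option autoImplicit false

namespace Pool.Agent.Helper140_T3

open Pool.Agent.Helper140_E5 Pool.Agent.Helper140_T12
open Subgroup Polynomial
open scoped commutatorElement

universe u v

/-- two quadratic elements of finite order product generate a finite group -/
theorem fin_pair {R : Type u} [Ring R] (h3 : (3 : R) = 0) {n : ℕ} (hn0 : 0 < n) (a b : Rˣ)
    (hn : (a * b) ^ n = 1) (hA : (a.val - 1) * (a.val - 1) = 0)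
    (hB : (b.val - 1) * (b.val - 1) = 0) : Finite (closure ({a, b} : Set Rˣ)) := by
  rcases subsingleton_or_nontrivial R with hR | hR
  · have : Subsingleton Rˣ := ⟨fun x y => Units.ext (Subsingleton.elim _ _)⟩
    infer_instance
  have : CharP R 3 := charP3 R h3
  let _ : Algebra (ZMod 3) R := ZMod.algebra R 3
  set A := a.val - 1 with hAd
  set B := b.val - 1 with hBd
  have haA : a.val = 1 + A := by rw [hAd]; abel
  have hbB : b.val = 1 + B := by rw [hBd]; abel
  obtain ⟨T, hT⟩ : ∃ T, T = A * B + B * A := ⟨_, rfl⟩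
  have hTi : IsIntegral (ZMod 3) T := by
    have hc : IsIntegral (ZMod 3) (a * b : Rˣ).val := by
      refine ⟨X ^ n - C 1, monic_X_pow_sub_C 1 hn0.ne', ?_⟩
      rw [← aeval_def, map_sub, map_pow, aeval_X, aeval_C, map_one, ← Units.val_pow_eq_pow_val,
        hn, Units.val_one, sub_self]
    refine IsIntegral.of_mem_of_fg (Algebra.adjoin (ZMod 3) {(a * b : Rˣ).val})
      hc.fg_adjoin_singleton T ?_
    have hmem : (a * b : Rˣ).val ∈ Algebra.adjoin (ZMod 3) {(a * b : Rˣ).val} :=
      Algebra.subset_adjoin rfl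
    have hinv : ((a * b : Rˣ)⁻¹).val = (a * b : Rˣ).val ^ (n - 1) := by
      have h1 : (a * b : Rˣ)⁻¹ = (a * b) ^ (n - 1) := by
        apply inv_eq_of_mul_eq_one_left
        rw [← pow_succ, Nat.sub_add_cancel hn0]
        exact hn
      rw [h1, Units.val_pow_eq_pow_val]
    have ha' : (a⁻¹).val = 1 - A := by
      apply Units.inv_eq_of_mul_eq_one_right
      rw [haA, add_mul, one_mul, mul_sub, mul_one, hA]
      abel
    have hb' : (b⁻¹).val = 1 - B := by
      apply Units.inv_eq_of_mul_eq_one_right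
      rw [hbB, add_mul, one_mul, mul_sub, mul_one, hB]
      abel
    have e1 : T = (a * b : Rˣ).val + ((a * b : Rˣ)⁻¹).val + 1 := by
      rw [_root_.mul_inv_rev, Units.val_mul, Units.val_mul, haA, hbB, ha', hb', hT]
      have h3' : (1 : R) + 1 + 1 = 0 := by
        rw [← h3]
        norm_num
      linear_combination (norm := noncomm_ring) -h3'
    rw [e1, hinv]
    exact add_mem (add_mem hmem (pow_mem hmem _)) (one_mem _)
  exact fin_two hA hB hT hTi a b haA hbB

section
variable {G : Type u} [Group G] {m : ℕ}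

/-- the action of `G` on a ring -/
theorem core_theta (h3 : ¬ 3 ∣ m) (hG : ∀ x : G, x ^ (3 * m) = 1)
    {N P : Subgroup G} [hN : N.Normal] (hP : P.Normal) (hPN : P ≤ N)
    (hP3 : ∀ x ∈ P, x ^ 3 = 1) (hc : N ⊓ centralizer (P : Set G) ≤ P)
    {x y : G} (hx : x ^ 3 ∈ centralizer (N : Set G)) (hy : y ^ 3 ∈ centralizer (N : Set G)) :
    Finite ((closure ({x, y} : Set G)).map (QuotientGroup.mk' (centralizer (N : Set G)))) := by
  have hle : centralizer (N : Set G) ≤ centralizer (P : Set G) := centralizer_le hPN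
  have hD : (⁅P, P⁆ : Subgroup G).Normal := commutator_normal _ _
  have hDP : (⁅P, P⁆ : Subgroup G) ≤ P := comm_self_le P
  have hds : ds P 2 = ⊥ := exists_ds 2 (meta3 fun x : P => Subtype.ext (hP3 x x.2))
  have hD3 : ∀ z ∈ (⁅P, P⁆ : Subgroup G), z ^ 3 = 1 := fun z hz => hP3 z (hDP hz)
  have hDab : ∀ x ∈ (⁅P, P⁆ : Subgroup G), ∀ y ∈ (⁅P, P⁆ : Subgroup G), x * y = y * x := by
    intro u hu v hv
    have h5 : ⁅u, v⁆ ∈ (⊥ : Subgroup G) := by
      rw [← hds]
      exact commutator_mem_commutator hu hv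
    exact commutatorElement_eq_one_iff_mul_comm.1 (mem_bot.1 h5)
  set π := QuotientGroup.mk' ⁅P, P⁆ with hπ
  have hπs : Function.Surjective π := QuotientGroup.mk'_surjective _
  have hG' : ∀ x : G ⧸ (⁅P, P⁆ : Subgroup G), x ^ (3 * m) = 1 := fun x => by
    obtain ⟨g, rfl⟩ := hπs x
    rw [← map_pow, hG, map_one]
  have hP' : (P.map π).Normal := hP.map π hπs
  have hPab : ∀ x ∈ P.map π, ∀ y ∈ P.map π, x * y = y * x := by
    rintro _ ⟨x, hx, rfl⟩ _ ⟨y, hy, rfl⟩
    rw [← commutatorElement_eq_one_iff_mul_comm, ← map_commutatorElement]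
    exact (QuotientGroup.eq_one_iff _).2 (commutator_mem_commutator hx hy)
  have hP3' : ∀ x ∈ P.map π, x ^ 3 = 1 := by
    rintro _ ⟨x, hx, rfl⟩
    rw [← map_pow, hP3 x hx, map_one]
  let c1 := (cj hP' hPab).comp π
  let c2 := cj hD hDab
  let θ := (c1.prod c2).toHomUnits
  have hθ : ∀ g, (θ g).val = (c1 g, c2 g) := fun g => rfl
  have hk1 : ∀ g, c1 g = 1 ↔ g ∈ Cs ⁅P, P⁆ P := by
    intro g
    have h1 : π g ∈ (cj hP' hPab).toHomUnits.ker ↔
        π g ∈ centralizer ((P.map π : Subgroup _) : Set _) := by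
      rw [ker_cj]
    rw [MonoidHom.mem_ker, Units.ext_iff] at h1
    exact h1
  have hk2 : ∀ g, c2 g = 1 ↔ g ∈ centralizer ((⁅P, P⁆ : Subgroup G) : Set G) := by
    intro g
    have h1 : g ∈ (cj hD hDab).toHomUnits.ker ↔
        g ∈ centralizer ((⁅P, P⁆ : Subgroup G) : Set G) := by
      rw [ker_cj]
    rw [MonoidHom.mem_ker, Units.ext_iff] at h1
    exact h1
  have hθ1 : ∀ g, θ g = 1 ↔ g ∈ Cs ⁅P, P⁆ P ∧
      g ∈ centralizer ((⁅P, P⁆ : Subgroup G) : Set G) := by
    intro g
    rw [← hk1, ← hk2, Units.ext_iff, hθ, Units.val_one, Prod.ext_iff]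
    rfl
  have hcs : ∀ g ∈ centralizer (P : Set G), g ∈ Cs ⁅P, P⁆ P := by
    intro g hg
    rw [mem_Cs]
    intro n hn
    have h5 := mem_centralizer_iff.1 hg n hn
    have h6 : ⁅n, g⁆ = 1 := by
      rw [commutatorElement_eq_one_iff_mul_comm]
      exact h5
    rw [h6]
    exact one_mem _
  have hcD : centralizer (P : Set G) ≤ centralizer ((⁅P, P⁆ : Subgroup G) : Set G) :=
    centralizer_le hDP
  -- the kernel
  have hkP : ∀ g, θ g = 1 → g ^ 3 ∈ centralizer (P : Set G) := by
    intro g hg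
    obtain ⟨s1, s2⟩ := (hθ1 g).1 hg
    refine stab_cube hP hD3 (fun n hn => ?_) s2
    have h5 := mem_Cs.1 s1 n⁻¹ (inv_mem hn)
    rw [commutatorElement_def, inv_inv] at h5
    have e2 : n⁻¹ * (g * n * g⁻¹) = n⁻¹ * g * n * g⁻¹ := by group
    rw [e2]
    exact h5
  have hCn : (centralizer (P : Set G)).Normal := inferInstance
  have hkN : ∀ g ∈ centralizer (P : Set G), g ^ 3 ∈ centralizer (N : Set G) := by
    intro g hg
    refine stab_cube (M := N ⊓ centralizer (P : Set G)) hN (fun z hz => hP3 z (hc hz)) ?_ ?_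
    · intro n hn
      refine mem_inf.2 ⟨mul_mem (inv_mem hn) (hN.conj_mem n hn _), ?_⟩
      have h5 := hCn.conj_mem _ hg n⁻¹
      rw [inv_inv] at h5
      have e2 : n⁻¹ * (g * n * g⁻¹) = n⁻¹ * g * n * g⁻¹ := by group
      rw [e2]
      exact mul_mem h5 (inv_mem hg)
    · rw [mem_centralizer_iff]
      intro z hz
      exact mem_centralizer_iff.1 hg z (hc hz)
  have hker : ∀ g, θ g = 1 → g ^ 3 ∈ centralizer (N : Set G) := by
    intro g hg
    refine three_of_nine' h3 hG ?_
    have e : g ^ 9 = (g ^ 3) ^ 3 := by rw [← pow_mul]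
    rw [e]
    exact hkN _ (hkP g hg)
  have hCθ : ∀ g ∈ centralizer (N : Set G), θ g = 1 := fun g hg =>
    (hθ1 g).2 ⟨hcs g (hle hg), hcD (hle hg)⟩
  have hR : (3 : AddMonoid.End (NV (P.map π) hPab) × AddMonoid.End (NV ⁅P, P⁆ hDab)) = 0 := by
    refine Prod.ext (AddMonoidHom.ext fun v => tN_inj ?_) (AddMonoidHom.ext fun v => tN_inj ?_)
    · have e : (3 : AddMonoid.End (NV (P.map π) hPab)) v = (3 : ℕ) • v := rfl
      exact (congrArg tN e).trans (by rw [tN_nsmul, hP3' _ (tN_mem v)]; rfl)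
    · have e : (3 : AddMonoid.End (NV ⁅P, P⁆ hDab)) v = (3 : ℕ) • v := rfl
      exact (congrArg tN e).trans (by rw [tN_nsmul, hD3 _ (tN_mem v)]; rfl)
  have hq : ∀ g, θ g ^ 3 = 1 → ((θ g).val - 1) * ((θ g).val - 1) = 0 := by
    intro g hg
    rw [← map_pow] at hg
    obtain ⟨s1, s2⟩ := (hθ1 _).1 hg
    rw [hθ]
    refine Prod.ext ?_ ?_
    · exact ab_quad h3 hG' hP' hPab hP3' (π g) (by rw [← map_pow]; exact s1)
    · exact ab_quad h3 hG hD hDab hD3 g s2
  have hm : m ≠ 0 := by
    rintro rfl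
    exact h3 (dvd_zero 3)
  have hfin : Finite (closure ({θ x, θ y} : Set _)) := by
    refine fin_pair hR (n := 3 * m) (by omega) _ _ ?_ (hq x ?_) (hq y ?_)
    · rw [← map_mul, ← map_pow, hG, map_one]
    · rw [← map_pow]
      exact hCθ _ hx
    · rw [← map_pow]
      exact hCθ _ hy
  have hCNn : (centralizer (N : Set G)).Normal := inferInstance
  set C := centralizer (N : Set G) with hC
  let f : G ⧸ C →* (AddMonoid.End (NV (P.map π) hPab) × AddMonoid.End (NV ⁅P, P⁆ hDab))ˣ :=
    QuotientGroup.lift C θ (fun g hg => hCθ g hg)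
  set M := (closure ({x, y} : Set G)).map (QuotientGroup.mk' C) with hM
  have hMc : M = closure ({QuotientGroup.mk' C x, QuotientGroup.mk' C y} : Set (G ⧸ C)) := by
    rw [hM, MonoidHom.map_closure, Set.image_pair]
  have hlf : LFin M := by
    refine schmidt (f.comp M.subtype) ?_ ?_
    · have h1 : ∀ z : (f.comp M.subtype).ker, z ^ 3 = 1 := by
        rintro ⟨⟨z, hzM⟩, hz⟩
        obtain ⟨g, rfl⟩ := QuotientGroup.mk_surjective z
        have h2 : θ g = 1 := hz
        refine Subtype.ext (Subtype.ext ?_)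
        change (QuotientGroup.mk g : G ⧸ C) ^ 3 = 1
        rw [← QuotientGroup.mk_pow, QuotientGroup.eq_one_iff]
        exact hker g h2
      exact lf_soluble (n := 3) (by norm_num) 2 _ (meta3 h1) h1
    · have h1 : (f.comp M.subtype).range ≤ closure ({θ x, θ y} : Set _) := by
        rintro _ ⟨⟨z, hzM⟩, rfl⟩
        rw [hM] at hzM
        obtain ⟨g, hg, rfl⟩ := hzM
        have h2 : (closure ({x, y} : Set G)).map θ = closure ({θ x, θ y} : Set _) := by
          rw [MonoidHom.map_closure, Set.image_pair]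
        rw [← h2]
        exact ⟨g, hg, rfl⟩
      exact LFin.inj (Subgroup.inclusion h1) (Subgroup.inclusion_injective _) (lfin_finite hfin)
  rw [hMc]
  refine lf_cl hlf (by simp) ?_
  rw [hMc]
  exact fun z hz => subset_closure hz

end

end Pool.Agent.Helper140_T3
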