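import Pool.Agent.Helper140_T3.Gr2

/-!
# Groups of exponent `2 ^ k` with abelian finite subgroups
-/

set_option autoImplicit false

namespace Pool.Agent.Helper140_T3

open Pool.Agent.Helper140_E5 Pool.Agent.Helper140_T12
open Subgroup
open scoped commutatorElement

universe u v

/-- if `4` does not divide the exponent then the finite `2`-subgroups are abelian -/
theorem twoAb_of_not {G : Type u} [Group G] {n : ℕ} (h4 : ¬ 4 ∣ n) (hG : ∀ x : G, x ^ n = 1) :
    TwoAb G := by
  intro Q _ hQ
  have key : ∀ x ∈ Q, x * x = 1 := by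
    intro x hx
    obtain ⟨k, hk⟩ := hQ ⟨x, hx⟩
    have hk' : x ^ 2 ^ k = 1 := congrArg Subtype.val hk
    obtain ⟨j, -, hj⟩ := (Nat.dvd_prime_pow Nat.prime_two).1 (orderOf_dvd_of_pow_eq_one hk')
    have h1 : 2 ^ j ∣ n := by
      rw [← hj]
      exact orderOf_dvd_of_pow_eq_one (hG x)
    have h2 : j ≤ 1 := by
      by_contra hcon
      push Not at hcon
      apply h4
      have := pow_dvd_pow 2 hcon
      exact (by simpa using this : 4 ∣ 2 ^ j).trans h1
    rw [← pow_two]
    apply orderOf_dvd_iff_pow_eq_one.1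
    rw [hj]
    exact (pow_dvd_pow 2 h2).trans (by norm_num)
  intro x hx y hy
  have h1 := key _ (mul_mem hx hy)
  have h2 : x⁻¹ = x := inv_eq_of_mul_eq_one_left (key x hx)
  have h3 : y⁻¹ = y := inv_eq_of_mul_eq_one_left (key y hy)
  have h4 : x * y = (x * y)⁻¹ := eq_inv_of_mul_eq_one_left h1
  rw [h4, mul_inv_rev, h2, h3]

/-- the group generated by two involutions -/
def dihS {G : Type u} [Group G] (s t : G) (hs : s * s = 1) (ht : t * t = 1) : Subgroup G where
  carrier := {g | ∃ i : ℤ, g = (s * t) ^ i ∨ g = (s * t) ^ i * s}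
  one_mem' := ⟨0, Or.inl (zpow_zero _).symm⟩
  mul_mem' := by
    have hsi : s⁻¹ = s := inv_eq_of_mul_eq_one_left hs
    have hti : t⁻¹ = t := inv_eq_of_mul_eq_one_left ht
    have key : ∀ i : ℤ, s * (s * t) ^ i = (s * t) ^ (-i) * s := by
      intro i
      have h1 : s * (s * t) * s⁻¹ = (s * t)⁻¹ := by
        rw [mul_inv_rev, hti, hsi, ← mul_assoc, hs, one_mul]
      have h2 := conj_zpow (i := i) (a := s) (b := s * t)
      rw [h1, inv_zpow'] at h2
      rw [h2, inv_mul_cancel_right]
    rintro _ _ ⟨i, rfl | rfl⟩ ⟨j, rfl | rfl⟩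
    · exact ⟨i + j, Or.inl (zpow_add _ _ _).symm⟩
    · exact ⟨i + j, Or.inr (by rw [zpow_add, mul_assoc])⟩
    · exact ⟨i + -j, Or.inr (by rw [zpow_add, mul_assoc, key, mul_assoc])⟩
    · exact ⟨i + -j, Or.inl (by
        rw [zpow_add, mul_assoc, ← mul_assoc s, key, mul_assoc ((s * t) ^ (-j)), hs, mul_one])⟩
  inv_mem' := by
    have hsi : s⁻¹ = s := inv_eq_of_mul_eq_one_left hs
    have hti : t⁻¹ = t := inv_eq_of_mul_eq_one_left ht
    have key : ∀ i : ℤ, s * (s * t) ^ i = (s * t) ^ (-i) * s := by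
      intro i
      have h1 : s * (s * t) * s⁻¹ = (s * t)⁻¹ := by
        rw [mul_inv_rev, hti, hsi, ← mul_assoc, hs, one_mul]
      have h2 := conj_zpow (i := i) (a := s) (b := s * t)
      rw [h1, inv_zpow'] at h2
      rw [h2, inv_mul_cancel_right]
    rintro _ ⟨i, rfl | rfl⟩
    · exact ⟨-i, Or.inl (zpow_neg _ _).symm⟩
    · refine ⟨i, Or.inr ?_⟩
      rw [mul_inv_rev, hsi, ← zpow_neg, key, neg_neg]

theorem dihS_finite {G : Type u} [Group G] (s t : G) (hs : s * s = 1) (ht : t * t = 1) {n : ℕ}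
    (hn : 0 < n) (h : (s * t) ^ n = 1) : Finite (dihS s t hs ht) := by
  have h1 : IsOfFinOrder (s * t) := isOfFinOrder_iff_pow_eq_one.2 ⟨n, hn, h⟩
  have h2 : ((zpowers (s * t) : Subgroup G) : Set G).Finite := by
    have : Finite (zpowers (s * t)) := h1.finite_zpowers
    exact this
  have h3 : ((dihS s t hs ht : Subgroup G) : Set G) ⊆
      ((zpowers (s * t) : Subgroup G) : Set G) ∪ (fun g => g * s) '' (zpowers (s * t) : Set G) := by
    rintro _ ⟨i, rfl | rfl⟩
    · exact Or.inl ⟨i, rfl⟩
    · exact Or.inr ⟨_, ⟨i, rfl⟩, rfl⟩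
  exact (h2.union (h2.image _)).subset h3

/-- lifting modulo locally finite kernels -/
theorem lift_ab2 {E : Type u} {K : Type v} [Group E] [Group K] (f : E →* K)
    (hf : Function.Surjective f) (hk : LFin f.ker) {k : ℕ} (h2 : ∀ x : E, x ^ 2 ^ k = 1)
    (hE : TwoAb E) : TwoAb K := by
  intro Q hQf hQ
  set M := Q.comap f with hM
  have hlf : LFin M := by
    refine schmidt (f.comp M.subtype) ?_ ?_
    · refine LFin.inj (H := f.ker) ⟨⟨fun x => ⟨x.1.1, x.2⟩, rfl⟩, fun _ _ => rfl⟩ ?_ hk
      intro x y hxy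
      have h3 : x.1.1 = y.1.1 := congrArg (fun z : f.ker => z.1) hxy
      exact Subtype.ext (Subtype.ext h3)
    · have h1 : (f.comp M.subtype).range ≤ Q := by
        rintro _ ⟨x, rfl⟩
        exact x.2
      exact LFin.inj (Subgroup.inclusion h1) (Subgroup.inclusion_injective _) (lfin_finite hQf)
  choose s hs using hf
  set S : Set E := s '' (Q : Set K) with hS
  have hSf : S.Finite := by
    have : Finite (Q : Set K) := hQf
    exact Set.Finite.image s this
  have hSM : ∀ x ∈ S, x ∈ M := by
    rintro _ ⟨y, hy, rfl⟩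
    change f (s y) ∈ Q
    rw [hs]
    exact hy
  have hFf : Finite (closure S) := lf_cl hlf hSf hSM
  have h3 := hE (closure S) hFf fun x => ⟨k, Subtype.ext (h2 x.1)⟩
  intro x hx y hy
  have h4 := h3 (s x) (subset_closure ⟨x, hx, rfl⟩) (s y) (subset_closure ⟨y, hy, rfl⟩)
  have h5 := congrArg f h4
  rw [map_mul, map_mul, hs, hs] at h5
  exact h5

/-- groups of exponent `2 ^ k` with abelian finite subgroups are abelian -/
theorem ab_of_pow (k : ℕ) : ∀ (H : Type u) [Group H], (∀ x : H, x ^ 2 ^ k = 1) → TwoAb H →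
    ∀ x y : H, x * y = y * x := by
  induction k with
  | zero =>
    intro H _ h _ x y
    have h1 : ∀ z : H, z = 1 := fun z => by
      have := h z
      rwa [pow_zero, pow_one] at this
    rw [h1 x, h1 y]
  | succ k ih =>
    intro H _ h hab
    have hcomm : ∀ s t : H, s * s = 1 → t * t = 1 → s * t = t * s := by
      intro s t hs ht
      refine hab (dihS s t hs ht) (dihS_finite s t hs ht (Nat.two_pow_pos (k + 1)) (h _))
        (fun x => ⟨k + 1, Subtype.ext (h x.1)⟩) s ⟨0, Or.inr (by simp)⟩ t ⟨-1, Or.inr ?_⟩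
      rw [zpow_neg_one, mul_inv_rev, inv_eq_of_mul_eq_one_left hs,
        inv_eq_of_mul_eq_one_left ht, mul_assoc, hs, mul_one]
    let E : Subgroup H :=
      { carrier := {x | x * x = 1}
        one_mem' := one_mul 1
        mul_mem' := fun {x y} hx hy => by
          change x * y * (x * y) = 1
          have h1 : x * y = y * x := hcomm x y hx hy
          calc x * y * (x * y) = x * (y * x) * y := by group
            _ = x * (x * y) * y := by rw [h1]
            _ = (x * x) * (y * y) := by group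
            _ = 1 := by rw [show x * x = 1 from hx, show y * y = 1 from hy, one_mul]
        inv_mem' := fun {x} hx => by
          change x⁻¹ * x⁻¹ = 1
          rw [← mul_inv_rev, show x * x = 1 from hx, inv_one] }
    have hEn : E.Normal := ⟨fun x hx g => by
      change g * x * g⁻¹ * (g * x * g⁻¹) = 1
      have h1 : g * x * g⁻¹ * (g * x * g⁻¹) = g * (x * x) * g⁻¹ := by group
      rw [h1, show x * x = 1 from hx, mul_one, mul_inv_cancel]⟩
    have hElf : LFin E := lf_comm (fun x y => Subtype.ext (hcomm x y x.2 y.2)) (n := 2)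
      (by norm_num) fun x => Subtype.ext (by
        change (x : H) ^ 2 = 1
        rw [pow_two]
        exact x.2)
    have hq : ∀ x : H ⧸ E, x ^ 2 ^ k = 1 := by
      intro x
      obtain ⟨x, rfl⟩ := QuotientGroup.mk_surjective x
      rw [← QuotientGroup.mk_pow, QuotientGroup.eq_one_iff]
      change x ^ 2 ^ k * x ^ 2 ^ k = 1
      rw [← pow_add, ← _root_.two_mul, ← pow_succ']
      exact h x
    have hkE : LFin (QuotientGroup.mk' E).ker := by
      rw [QuotientGroup.ker_mk']
      exact hElf
    have hKab := ih (H ⧸ E) hq (lift_ab2 (QuotientGroup.mk' E) (QuotientGroup.mk'_surjective E)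
      hkE h hab)
    have hlf : LFin H := by
      refine schmidt (QuotientGroup.mk' E) hkE ?_
      refine LFin.inj (MonoidHom.range _).subtype (Subgroup.subtype_injective _) ?_
      exact lf_comm hKab (Nat.two_pow_pos k) hq
    intro x y
    exact hab (closure {x, y}) (hlf {x, y} (by simp)) (fun z => ⟨k + 1, Subtype.ext (h z.1)⟩) x
      (subset_closure (by simp)) y (subset_closure (by simp))

end Pool.Agent.Helper140_T3
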