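import Pool.Agent.Helper140_T3.Wr
import Pool.Agent.Helper140_T3.Tp

/-!
# Wreath products, finite `2`-subgroups
-/

set_option autoImplicit false

namespace Pool.Agent.Helper140_T3

open Pool.Agent.Helper140_E5 Pool.Agent.Helper140_T12
open Subgroup
open scoped commutatorElement

universe u v

theorem TwoAb.inj {G : Type u} {K : Type v} [Group G] [Group K] (f : G →* K)
    (hf : Function.Injective f) (h : TwoAb K) : TwoAb G := by
  intro Q hQf hQ x hx y hy
  have h1 := h (Q.map f) (Finite.of_surjective _ (f.subgroupMap_surjective Q)) (hQ.map f)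
    (f x) ⟨x, hx, rfl⟩ (f y) ⟨y, hy, rfl⟩
  rw [← map_mul, ← map_mul] at h1
  exact hf h1

section
variable (H : Type u) [Group H]

attribute [local instance] base_normal

theorem wr_twoAb (h : TwoAb H) : TwoAb (RegularWreathProduct Z3 H ⧸
    centralizer (base H : Set (RegularWreathProduct Z3 H))) := by
  refine TwoAb.inj (QuotientGroup.lift _ RegularWreathProduct.rightHom (base_cen H)) ?_ h
  rw [injective_iff_map_eq_one]
  intro x hx
  obtain ⟨g, rfl⟩ := QuotientGroup.mk_surjective x
  rw [QuotientGroup.eq_one_iff, mem_centralizer_iff]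
  intro y hy
  exact base_comm H y hy g hx

end

section
variable {G : Type u} [Group G] {m : ℕ}

/-- the quotient by `X` -/
theorem quot_twoAb {C X : Subgroup G} [C.Normal] (hX : X.Normal) (hX3 : ∀ x ∈ X, x ^ 3 ∈ C)
    (hCX : C ≤ X) (h : TwoAb (G ⧸ C)) : TwoAb (G ⧸ X) := by
  refine lift_ab (QuotientGroup.map C X (MonoidHom.id G) (by
    rw [comap_id]
    exact hCX)) ?_ ?_ h
  · intro x
    obtain ⟨g, rfl⟩ := QuotientGroup.mk_surjective x
    exact ⟨QuotientGroup.mk g, rfl⟩
  · intro x hx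
    obtain ⟨g, rfl⟩ := QuotientGroup.mk_surjective x
    have h1 : (QuotientGroup.mk g : G ⧸ X) = 1 := hx
    rw [← QuotientGroup.mk_pow, QuotientGroup.eq_one_iff]
    exact hX3 g ((QuotientGroup.eq_one_iff _).1 h1)

/-- local finiteness of `G / C` from that of `G / X` -/
theorem lf_of_quot {C X : Subgroup G} [C.Normal] (hX : X.Normal) (hX3 : ∀ x ∈ X, x ^ 3 ∈ C)
    (hCX : C ≤ X) (h : LFin (G ⧸ X)) : LFin (G ⧸ C) := by
  have hf : C ≤ X.comap (MonoidHom.id G) := by
    rw [comap_id]
    exact hCX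
  refine schmidt (QuotientGroup.map C X (MonoidHom.id G) hf) ?_
    (LFin.inj (MonoidHom.range _).subtype (Subgroup.subtype_injective _) h)
  have h1 : ∀ x : (QuotientGroup.map C X (MonoidHom.id G) hf).ker, x ^ 3 = 1 := by
    rintro ⟨x, hx⟩
    obtain ⟨g, rfl⟩ := QuotientGroup.mk_surjective x
    have h1 : (QuotientGroup.mk g : G ⧸ X) = 1 := hx
    apply Subtype.ext
    change (QuotientGroup.mk g : G ⧸ C) ^ 3 = 1
    rw [← QuotientGroup.mk_pow, QuotientGroup.eq_one_iff]
    exact hX3 g ((QuotientGroup.eq_one_iff _).1 h1)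
  exact lf_soluble (n := 3) (by norm_num) 2 _ (meta3 h1) h1

end

end Pool.Agent.Helper140_T3
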