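import Pool.Agent.Helper140_T3.Tr2

/-!
# Quaternion groups of order eight
-/

set_option autoImplicit false

namespace Pool.Agent.Helper140_T3

open Matrix

universe u v

theorem quat_hom {W : Type u} [Group W] {x y : W} (hx4 : x ^ 4 = 1) (hxy : x * y = y * x⁻¹)
    (hy2 : y ^ 2 = x ^ 2) (hx2 : x ^ 2 ≠ 1) :
    ∃ ψ : QuaternionGroup 2 →* W, Function.Injective ψ := by
  let p : ZMod (2 * 2) → W := fun i => x ^ i.val
  have padd : ∀ i j, p (i + j) = p i * p j := by
    intro i j
    change x ^ (i + j).val = x ^ i.val * x ^ j.val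
    rw [ZMod.val_add, ← pow_eq_pow_mod _ hx4, pow_add]
  have p0 : p 0 = 1 := by
    change x ^ (0 : ZMod (2 * 2)).val = 1
    rw [ZMod.val_zero, pow_zero]
  have pneg : ∀ i, p (-i) = (p i)⁻¹ := by
    intro i
    apply eq_inv_of_mul_eq_one_left
    rw [← padd, neg_add_cancel, p0]
  have psub : ∀ i j, p (i - j) = p i * (p j)⁻¹ := by
    intro i j
    rw [sub_eq_add_neg, padd, pneg]
  have p2 : p ((2 : ℕ) : ZMod (2 * 2)) = x ^ 2 := rfl
  have hk : ∀ k : ℕ, x ^ k * y = y * (x ^ k)⁻¹ := by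
    intro k
    induction k with
    | zero => simp
    | succ k ih =>
      rw [pow_succ, mul_assoc, hxy, ← mul_assoc, ih, mul_assoc, ← _root_.mul_inv_rev, ← pow_succ',
        ← pow_succ]
  have pcomm : ∀ i j, p i * p j = p j * p i := by
    intro i j
    rw [← padd, add_comm, padd]
  have pcomm' : ∀ i j, (p i)⁻¹ * p j = p j * (p i)⁻¹ := by
    intro i j
    rw [← pneg, pcomm]
  have pk : ∀ i, p i * y = y * (p i)⁻¹ := fun i => hk _
  let ψ0 : QuaternionGroup 2 → W := fun q =>
    match q with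
    | .a i => p i
    | .xa i => y * p i
  have hmul : ∀ q r, ψ0 (q * r) = ψ0 q * ψ0 r := by
    rintro (i | i) (j | j)
    · rw [QuaternionGroup.a_mul_a]
      exact padd i j
    · rw [QuaternionGroup.a_mul_xa]
      change y * p (j - i) = p i * (y * p j)
      have h1 : p i * (y * p j) = (p i * y) * p j := (mul_assoc _ _ _).symm
      rw [psub, h1, pk, mul_assoc, pcomm']
    · rw [QuaternionGroup.xa_mul_a]
      change y * p (i + j) = y * p i * p j
      rw [padd, mul_assoc]
    · rw [QuaternionGroup.xa_mul_xa]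
      change p (((2 : ℕ) : ZMod (2 * 2)) + j - i) = y * p i * (y * p j)
      rw [psub, padd, p2, ← hy2]
      have h1 : y * p i * (y * p j) = y * (p i * y) * p j := by simp only [mul_assoc]
      rw [h1, pk, sq]
      simp only [mul_assoc]
      rw [pcomm']
  refine ⟨MonoidHom.mk' ψ0 hmul, ?_⟩
  rw [injective_iff_map_eq_one]
  rintro (i | i) hi
  · have h1 : x ^ i.val = 1 := hi
    have h2 := ZMod.val_lt i
    have h3 : i.val = 0 := by
      have h5 : orderOf x = 4 := by
        have h6 : orderOf x = 2 ^ (1 + 1) := orderOf_eq_prime_pow (p := 2) (n := 1) (by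
          rw [pow_one]
          exact hx2) (by
          rw [show (2 : ℕ) ^ (1 + 1) = 4 by norm_num]
          exact hx4)
        rw [h6]
        norm_num
      have h6 := orderOf_dvd_of_pow_eq_one h1
      rw [h5] at h6
      exact Nat.eq_zero_of_dvd_of_lt h6 h2
    have h4 : i = 0 := (ZMod.val_eq_zero i).1 h3
    rw [h4]
    rfl
  · exfalso
    have h1 : y * x ^ i.val = 1 := hi
    have h2 : y = (x ^ i.val)⁻¹ := eq_inv_of_mul_eq_one_left h1
    have h3 : x * y = y * x := by
      rw [h2]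
      have h4 : Commute x (x ^ i.val)⁻¹ := (Commute.self_pow x _).inv_right
      exact h4
    rw [hxy] at h3
    have h4 : x⁻¹ = x := mul_left_cancel h3
    apply hx2
    rw [sq]
    nth_rewrite 1 [← h4]
    exact inv_mul_cancel x

theorem quat_pgroup : IsPGroup 2 (QuaternionGroup 2) := by
  have hp : Fact (Nat.Prime 2) := ⟨Nat.prime_two⟩
  refine IsPGroup.of_card (n := 3) ?_
  rw [Nat.card_eq_fintype_card, QuaternionGroup.card]
  norm_num

/-- lifting modulo arbitrary normal subgroups, finite groups -/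
theorem lift_quat {F : Type u} {H : Type v} [Group F] [Finite F] [Group H] (f : F →* H)
    (hf : Function.Surjective f) (ψ : QuaternionGroup 2 →* H) (hψ : Function.Injective ψ) :
    ∃ S : Subgroup F, IsPGroup 2 S ∧ ∃ φ : S →* QuaternionGroup 2, Function.Surjective φ := by
  have hp : Fact (Nat.Prime 2) := ⟨Nat.prime_two⟩
  set M := ψ.range.comap f with hM
  have hMf : M.map f = ψ.range := Subgroup.map_comap_eq_self_of_surjective hf _
  let g := f.subgroupMap M
  have hg : Function.Surjective g := f.subgroupMap_surjective M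
  have hR : IsPGroup 2 (M.map f) := by
    rw [hMf]
    exact quat_pgroup.of_surjective ψ.rangeRestrict ψ.rangeRestrict_surjective
  obtain ⟨P⟩ : Nonempty (Sylow 2 M) := Sylow.nonempty
  have hPt : (P : Subgroup M).map g = ⊤ := by
    have h1 : ((P.mapSurjective hg : Sylow 2 (M.map f)) : Subgroup (M.map f)) = ⊤ := by
      refine ((P.mapSurjective hg).is_maximal' (Q := ⊤) ?_ le_top).symm
      exact hR.to_subgroup ⊤
    exact h1
  have hlift : ∀ x ∈ ψ.range, ∃ w ∈ (P : Subgroup M), f w.1 = x := by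
    intro x hx
    rw [← hMf] at hx
    have h1 : (⟨x, hx⟩ : M.map f) ∈ (P : Subgroup M).map g := by
      rw [hPt]
      exact Subgroup.mem_top _
    obtain ⟨w, hw, hwx⟩ := h1
    exact ⟨w, hw, congrArg Subtype.val hwx⟩
  refine ⟨(P : Subgroup M).map M.subtype, P.isPGroup'.map _, ?_⟩
  have hmem : ∀ s : (P : Subgroup M).map M.subtype, f s.1 ∈ ψ.range := by
    rintro ⟨_, w, -, rfl⟩
    exact w.2
  let e := MonoidHom.ofInjective hψ
  refine ⟨e.symm.toMonoidHom.comp
    ((f.comp ((P : Subgroup M).map M.subtype).subtype).codRestrict ψ.range hmem), ?_⟩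
  intro q
  obtain ⟨w, hw, hwq⟩ := hlift (ψ q) ⟨q, rfl⟩
  refine ⟨⟨w.1, w, hw, rfl⟩, ?_⟩
  change e.symm ⟨f w.1, _⟩ = q
  rw [MulEquiv.symm_apply_eq]
  exact Subtype.ext hwq

section
variable {K : Type u} [Field K]

theorem neg_of_invol (h3 : (3 : K) = 0) (e : (Matrix (Fin 2) (Fin 2) K)ˣ) (hd : e.val.det = 1)
    (he : e ^ 2 = 1) (h1 : e ≠ 1) : e = -1 := by
  have h2 := congrArg Units.val he
  rw [Units.val_pow_eq_pow_val, sq, Units.val_one] at h2
  rw [Matrix.det_fin_two] at hd
  obtain ⟨p, hp⟩ : ∃ p, p = e.val 0 0 := ⟨_, rfl⟩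
  obtain ⟨q, hq⟩ : ∃ q, q = e.val 0 1 := ⟨_, rfl⟩
  obtain ⟨r, hr⟩ : ∃ r, r = e.val 1 0 := ⟨_, rfl⟩
  obtain ⟨s, hs⟩ : ∃ s, s = e.val 1 1 := ⟨_, rfl⟩
  have a00 : p * p + q * r = 1 := by
    have h := congrFun (congrFun h2 0) 0
    rw [Matrix.mul_apply, Fin.sum_univ_two, Matrix.one_apply_eq] at h
    rw [hp, hq, hr]
    exact h
  have a01 : p * q + q * s = 0 := by
    have h := congrFun (congrFun h2 0) 1
    rw [Matrix.mul_apply, Fin.sum_univ_two, Matrix.one_apply_ne zero_ne_one] at h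
    rw [hp, hq, hs]
    exact h
  have a10 : r * p + s * r = 0 := by
    have h := congrFun (congrFun h2 1) 0
    rw [Matrix.mul_apply, Fin.sum_univ_two, Matrix.one_apply_ne one_ne_zero] at h
    rw [hp, hs, hr]
    exact h
  have a11 : r * q + s * s = 1 := by
    have h := congrFun (congrFun h2 1) 1
    rw [Matrix.mul_apply, Fin.sum_univ_two, Matrix.one_apply_eq] at h
    rw [hs, hq, hr]
    exact h
  rw [← hp, ← hq, ← hr, ← hs] at hd
  have hps : p + s ≠ 0 := by
    intro h
    have h5 : (1 : K) = 0 := by linear_combination h3 + hd + a00 - p * h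
    exact one_ne_zero h5
  have hq0 : q = 0 := by
    have h5 : q * (p + s) = 0 := by linear_combination a01
    exact (mul_eq_zero.1 h5).resolve_right hps
  have hr0 : r = 0 := by
    have h5 : r * (p + s) = 0 := by linear_combination a10
    exact (mul_eq_zero.1 h5).resolve_right hps
  have hsp : s = p := by
    have h5 : (p + s) * (p - s) = 0 := by linear_combination a00 - a11
    exact (sub_eq_zero.1 ((mul_eq_zero.1 h5).resolve_left hps)).symm
  have hp2 : (p - 1) * (p + 1) = 0 := by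
    rw [hq0] at a00
    linear_combination a00
  rcases mul_eq_zero.1 hp2 with h | h
  · exfalso
    apply h1
    have h5 : p = 1 := sub_eq_zero.1 h
    apply Units.ext
    rw [Units.val_one]
    ext i j
    fin_cases i <;> fin_cases j
    · simp [← hp, h5]
    · simp [← hq, hq0]
    · simp [← hr, hr0]
    · simp [← hs, hsp, h5]
  · have h5 : p = -1 := eq_neg_of_add_eq_zero_left h
    apply Units.ext
    rw [Units.val_neg, Units.val_one]
    ext i j
    fin_cases i <;> fin_cases j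
    · simp [← hp, h5]
    · simp [← hq, hq0]
    · simp [← hr, hr0]
    · simp [← hs, hsp, h5]

theorem sq_neg' (h3 : (3 : K) = 0) (x y : (Matrix (Fin 2) (Fin 2) K)ˣ) (hd : x.val.det = 1)
    (hxy : x * y = -(y * x)) : x ^ 2 = -1 := by
  have h1 : y⁻¹ * (x * y) = -x := by rw [hxy, mul_neg, inv_mul_cancel_left]
  have h2 := congrArg (fun z : (Matrix (Fin 2) (Fin 2) K)ˣ => z.val.trace) h1
  simp only [Units.val_mul, Units.val_neg, Matrix.trace_neg] at h2
  rw [Matrix.trace_mul_comm, mul_assoc, Units.mul_inv, mul_one] at h2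
  have h4 : x.val.trace = 0 := by linear_combination h3 * x.val.trace - h2
  rw [Matrix.trace_fin_two] at h4
  rw [Matrix.det_fin_two] at hd
  apply Units.ext
  rw [Units.val_pow_eq_pow_val, sq, Units.val_neg, Units.val_one]
  ext i j
  fin_cases i <;> fin_cases j <;>
    simp only [Fin.zero_eta, Fin.mk_one, Fin.isValue, Matrix.mul_apply, Fin.sum_univ_two,
      Matrix.neg_apply, Matrix.one_apply_eq, ne_eq, zero_ne_one, not_false_eq_true,
      Matrix.one_apply_ne, one_ne_zero]
  · linear_combination x.val 0 0 * h4 - hd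
  · linear_combination x.val 0 1 * h4
  · linear_combination x.val 1 0 * h4
  · linear_combination x.val 1 1 * h4 - hd

theorem exists_xy (h3 : (3 : K) = 0) (W : Subgroup (Matrix (Fin 2) (Fin 2) K)ˣ)
    (hdet : ∀ h ∈ W, h.val.det = 1) [Finite W] (hW : IsPGroup 2 W)
    (hna : ¬ ∀ x y : W, x * y = y * x) :
    ∃ x ∈ W, ∃ y ∈ W, x * y = -(y * x) ∧ x ^ 2 = -1 ∧ y ^ 2 = -1 := by
  have hp : Fact (Nat.Prime 2) := ⟨Nat.prime_two⟩
  push Not at hna
  obtain ⟨x0, y0, hx0⟩ := hna
  have hnt : Nontrivial (W ⧸ Subgroup.center W) := by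
    refine ⟨⟨QuotientGroup.mk y0, 1, fun h => ?_⟩⟩
    rw [QuotientGroup.eq_one_iff] at h
    exact hx0 (Subgroup.mem_center_iff.1 h x0)
  have hWq : IsPGroup 2 (W ⧸ Subgroup.center W) := hW.to_quotient _
  have hcn := hWq.center_nontrivial
  obtain ⟨⟨yb, hyb⟩, hyb1⟩ := exists_ne (1 : Subgroup.center (W ⧸ Subgroup.center W))
  obtain ⟨y, rfl⟩ := QuotientGroup.mk_surjective yb
  have hy1 : y ∉ Subgroup.center W := by
    intro h
    apply hyb1
    exact Subtype.ext ((QuotientGroup.eq_one_iff _).2 h)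
  rw [Subgroup.mem_center_iff] at hy1
  push Not at hy1
  obtain ⟨x, hx⟩ := hy1
  obtain ⟨c, hcd⟩ : ∃ c, c = x * y * (y * x)⁻¹ := ⟨_, rfl⟩
  have hxyc : x * y = c * (y * x) := by rw [hcd, inv_mul_cancel_right]
  have hcZ : c ∈ Subgroup.center W := by
    rw [← QuotientGroup.eq_one_iff, hcd, QuotientGroup.mk_mul, QuotientGroup.mk_inv,
      QuotientGroup.mk_mul, QuotientGroup.mk_mul, mul_inv_eq_one]
    exact Subgroup.mem_center_iff.1 hyb (QuotientGroup.mk x)
  have hc1 : c ≠ 1 := by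
    intro h
    rw [h, one_mul] at hxyc
    exact hx hxyc
  obtain ⟨k, hk⟩ := IsPGroup.iff_orderOf.1 hW c
  obtain ⟨k, rfl⟩ : ∃ l, k = l + 1 := by
    rcases k with _ | k
    · exfalso
      rw [pow_zero, orderOf_eq_one_iff] at hk
      exact hc1 hk
    · exact ⟨k, rfl⟩
  have hi : ∀ i : ℕ, x ^ i * y = c ^ i * (y * x ^ i) := by
    intro i
    induction i with
    | zero => simp
    | succ i ih =>
      have hc := Subgroup.mem_center_iff.1 hcZ
      calc x ^ (i + 1) * y = x ^ i * (x * y) := by rw [pow_succ, mul_assoc]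
        _ = x ^ i * c * (y * x) := by rw [hxyc, mul_assoc]
        _ = c * (x ^ i * y) * x := by rw [hc]; simp only [mul_assoc]
        _ = c * c ^ i * (y * (x ^ i * x)) := by rw [ih]; simp only [mul_assoc]
        _ = c ^ (i + 1) * (y * x ^ (i + 1)) := by rw [← pow_succ', ← pow_succ]
  have h2 : (c ^ 2 ^ k) ^ 2 = 1 := by
    rw [← pow_mul, ← pow_succ, ← hk, pow_orderOf_eq_one]
  have h4 : c ^ 2 ^ k ≠ 1 := by
    intro h
    have h5 := orderOf_dvd_of_pow_eq_one h
    rw [hk] at h5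
    have h6 := (Nat.pow_dvd_pow_iff_le_right (by norm_num : 1 < 2)).1 h5
    omega
  have h5 := hi (2 ^ k)
  have h6 : ((c ^ 2 ^ k : W) : (Matrix (Fin 2) (Fin 2) K)ˣ) = -1 := by
    refine neg_of_invol h3 _ (hdet _ (c ^ 2 ^ k).2) ?_ ?_
    · exact congrArg Subtype.val h2
    · intro h
      exact h4 (Subtype.ext h)
  obtain ⟨x', hx'⟩ : ∃ x', x' = x ^ 2 ^ k := ⟨_, rfl⟩
  rw [← hx'] at h5
  have h7 : x'.1 * y.1 = -(y.1 * x'.1) := by
    have h8 := congrArg Subtype.val h5
    have h9 : x'.1 * y.1 = (c ^ 2 ^ k : W).1 * (y.1 * x'.1) := h8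
    rw [h6, neg_mul, one_mul] at h9
    exact h9
  refine ⟨x'.1, x'.2, y.1, y.2, h7, sq_neg' h3 _ _ (hdet _ x'.2) h7, ?_⟩
  refine sq_neg' h3 _ x'.1 (hdet _ y.2) ?_
  rw [h7, neg_neg]

end

end Pool.Agent.Helper140_T3
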