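import Mathlib

/-!
# Groups of `2 × 2` matrices in characteristic three generated by two transvections
-/

set_option autoImplicit false

namespace Pool.Agent.Helper140_T3

open Matrix

universe u

section
variable {K : Type u} [Field K]

/-- the matrix `1, 0, 0, -1` -/
def dd (K : Type u) [Field K] : Matrix (Fin 2) (Fin 2) K := !![1, 0; 0, -1]

theorem dd_sq : dd K * dd K = 1 := by
  ext i j
  fin_cases i <;> fin_cases j <;> simp [dd, Matrix.mul_apply, Fin.sum_univ_two]

/-- the corresponding unit -/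
def du (K : Type u) [Field K] : (Matrix (Fin 2) (Fin 2) K)ˣ :=
  ⟨dd K, dd K, dd_sq, dd_sq⟩

/-- counting fixed vectors: some `h` maps the first basis vector to a multiple of the second -/
theorem exists_zero [Finite K] (h3 : (3 : K) = 0) (l : K) (hl : l ≠ 0)
    (H : Subgroup (Matrix (Fin 2) (Fin 2) K)ˣ) (a b : (Matrix (Fin 2) (Fin 2) K)ˣ)
    (ha : a.val = !![1, l; 0, 1]) (hb : b.val = !![1, 0; 1, 1]) (haH : a ∈ H) (hbH : b ∈ H) :
    ∃ h ∈ H, h.val 0 0 = 0 := by
  classical
  have : Fintype K := Fintype.ofFinite K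
  by_contra hcon
  push Not at hcon
  let α : Type u := {v : Fin 2 → K // ∃ x : Kˣ, ∃ h ∈ H, v = (x : K) • (h.val *ᵥ ![1, 0])}
  have hcol : ∀ h : (Matrix (Fin 2) (Fin 2) K)ˣ, h.val *ᵥ ![1, 0] = ![h.val 0 0, h.val 1 0] := by
    intro h
    ext i
    fin_cases i <;> simp [Matrix.mulVec, dotProduct, Fin.sum_univ_two]
  have hmap : ∀ g ∈ H, ∀ v : α, ∃ x : Kˣ, ∃ h ∈ H,
      g.val *ᵥ v.1 = (x : K) • (h.val *ᵥ ![1, 0]) := by
    rintro g hg ⟨v, x, h, hh, rfl⟩
    refine ⟨x, g * h, mul_mem hg hh, ?_⟩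
    rw [Matrix.mulVec_smul, Matrix.mulVec_mulVec, Units.val_mul]
  let fa : Function.End α := fun v => ⟨a.val *ᵥ v.1, hmap a haH v⟩
  let fb : Function.End α := fun v => ⟨b.val *ᵥ v.1, hmap b hbH v⟩
  have hfa : ∀ v : α, (fa v).1 = ![v.1 0 + l * v.1 1, v.1 1] := by
    intro v
    change a.val *ᵥ v.1 = _
    rw [ha]
    ext i
    fin_cases i <;> simp [Matrix.mulVec, dotProduct, Fin.sum_univ_two]
  have hfb : ∀ v : α, (fb v).1 = ![v.1 0, v.1 0 + v.1 1] := by
    intro v
    change b.val *ᵥ v.1 = _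
    rw [hb]
    ext i
    fin_cases i <;> simp [Matrix.mulVec, dotProduct, Fin.sum_univ_two]
  have hfa3 : fa ^ 3 ^ 1 = 1 := by
    funext v
    apply Subtype.ext
    change (fa (fa (fa v))).1 = v.1
    rw [hfa, hfa, hfa]
    ext i
    fin_cases i
    · simp
      linear_combination (l * v.1 1) * h3
    · simp
  have hfb3 : fb ^ 3 ^ 1 = 1 := by
    funext v
    apply Subtype.ext
    change (fb (fb (fb v))).1 = v.1
    rw [hfb, hfb, hfb]
    ext i
    fin_cases i
    · simp
    · simp
      linear_combination (v.1 0) * h3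
  have : Fact (Nat.Prime 3) := ⟨Nat.prime_three⟩
  have ca := Equiv.Perm.card_fixedPoints_modEq hfa3
  have cb := Equiv.Perm.card_fixedPoints_modEq hfb3
  have cb0 : Fintype.card (Function.fixedPoints fb) = 0 := by
    rw [Fintype.card_eq_zero_iff]
    refine ⟨fun v => ?_⟩
    obtain ⟨⟨v, x, h, hh, hv⟩, hfix⟩ := v
    have e1 := congrArg Subtype.val (hfix : fb ⟨v, x, h, hh, hv⟩ = ⟨v, x, h, hh, hv⟩)
    rw [hfb] at e1
    have e2 := congrFun e1 1
    simp at e2
    rw [hv, hcol] at e2
    simp at e2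
    exact hcon h hh e2
  have ca0 : Fintype.card (Function.fixedPoints fa) = Fintype.card Kˣ := by
    apply Fintype.card_congr
    refine ⟨fun v => ?_, fun x => ⟨⟨![(x : K), 0], x, 1, one_mem _, ?_⟩, ?_⟩, ?_, ?_⟩
    · refine Units.mk0 (v.1.1 0) ?_
      obtain ⟨⟨v, x, h, hh, hv⟩, hfix⟩ := v
      change v 0 ≠ 0
      rw [hv, hcol]
      simp only [Pi.smul_apply, smul_eq_mul, Matrix.cons_val_zero]
      exact mul_ne_zero x.ne_zero (hcon h hh)
    · rw [hcol]
      ext i
      fin_cases i <;> simp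
    · apply Subtype.ext
      rw [hfa]
      ext i
      fin_cases i <;> simp
    · intro v
      apply Subtype.ext
      apply Subtype.ext
      obtain ⟨⟨v, x, h, hh, hv⟩, hfix⟩ := v
      have e1 := congrArg Subtype.val (hfix : fa ⟨v, x, h, hh, hv⟩ = ⟨v, x, h, hh, hv⟩)
      rw [hfa] at e1
      have e2 := congrFun e1 0
      simp at e2
      have e3 : v 1 = 0 := by
        rcases e2 with e2 | e2
        · exact absurd e2 hl
        · exact e2
      ext i
      fin_cases i
      · simp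
      · simp [e3]
    · intro x
      apply Units.ext
      simp
  rw [cb0] at cb
  rw [ca0, Fintype.card_units] at ca
  have hq : 3 ∣ Fintype.card K := by
    obtain ⟨p, hp⟩ := CharP.exists K
    have hpp : p.Prime := (CharP.char_is_prime_or_zero K p).resolve_right (by
      rintro rfl
      have : CharZero K := CharP.charP_to_charZero K
      exact absurd h3 (by norm_num))
    have h5 : p ∣ 3 := (CharP.cast_eq_zero_iff K p 3).1 (by exact_mod_cast h3)
    have h6 : p = 3 := (Nat.prime_dvd_prime_iff_eq hpp Nat.prime_three).1 h5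
    subst h6
    obtain ⟨n, -, hn⟩ := FiniteField.card K 3
    rw [hn]
    exact dvd_pow_self 3 n.ne_zero
  have hpos : 0 < Fintype.card K := Fintype.card_pos
  have h7 := ca.symm.trans cb
  have h8 : 3 ∣ Fintype.card K - 1 := (Nat.modEq_zero_iff_dvd).1 h7
  omega

/-- an element of order four -/
theorem exists_four (h3 : (3 : K) = 0)
    (H : Subgroup (Matrix (Fin 2) (Fin 2) K)ˣ) (hdet : ∀ h ∈ H, (h.val).det = 1)
    (hD : ∀ h ∈ H, du K * h * (du K)⁻¹ ∈ H) (h : (Matrix (Fin 2) (Fin 2) K)ˣ) (hh : h ∈ H)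
    (h0 : h.val 0 0 = 0) : ∃ w ∈ H, w.val * w.val = -1 := by
  have d := hdet h hh
  rw [Matrix.det_fin_two, h0, zero_mul, zero_sub] at d
  obtain ⟨s, hs⟩ : ∃ s, h.val 0 1 = s := ⟨_, rfl⟩
  obtain ⟨y, hy⟩ : ∃ y, h.val 1 0 = y := ⟨_, rfl⟩
  obtain ⟨t, ht⟩ : ∃ t, h.val 1 1 = t := ⟨_, rfl⟩
  rw [hs, hy] at d
  have e1 : h.val = !![0, s; y, t] := by
    ext i j
    fin_cases i <;> fin_cases j <;> simp [h0, hs, hy, ht]
  have e2 : (du K * h * (du K)⁻¹).val = !![0, -s; -y, t] := by
    change dd K * h.val * dd K = _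
    rw [e1]
    ext i j
    fin_cases i <;> fin_cases j <;> simp [dd, Matrix.mul_apply, Fin.sum_univ_two]
  have e3 : (h⁻¹).val = !![t, -s; -y, 0] := by
    apply Units.inv_eq_of_mul_eq_one_right
    rw [e1]
    ext i j
    fin_cases i <;> fin_cases j <;> simp [Matrix.mul_apply, Fin.sum_univ_two] <;>
      first | linear_combination d | ring
  have e4 : ((du K * h * (du K)⁻¹)⁻¹).val = !![t, s; y, 0] := by
    apply Units.inv_eq_of_mul_eq_one_right
    rw [e2]
    ext i j
    fin_cases i <;> fin_cases j <;> simp [Matrix.mul_apply, Fin.sum_univ_two] <;>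
      first | linear_combination d | ring
  set g := du K * h * (du K)⁻¹ with hg
  have hgH : g ∈ H := hD h hh
  refine ⟨(g * h⁻¹) ^ 3 * (h * g⁻¹ * h), mul_mem (pow_mem (mul_mem hgH (inv_mem hh)) 3)
    (mul_mem (mul_mem hh (inv_mem hgH)) hh), ?_⟩
  have f1 : (g * h⁻¹).val = !![-1, 0; t * y, -1] := by
    rw [Units.val_mul, e2, e3]
    ext i j
    fin_cases i <;> fin_cases j <;> simp [Matrix.mul_apply, Fin.sum_univ_two]
    · linear_combination -d
    · linear_combination (-t * y) * h3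
    · linear_combination -d
  have f2 : ((g * h⁻¹) ^ 3).val = -1 := by
    rw [Units.val_pow_eq_pow_val, f1, pow_succ, pow_two]
    ext i j
    fin_cases i <;> fin_cases j <;> simp [Matrix.mul_apply, Fin.sum_univ_two]
    linear_combination (t * y) * h3
  have f3 : (h * g⁻¹ * h).val = !![0, -s; -y, 0] := by
    rw [Units.val_mul, Units.val_mul, e1, e4]
    ext i j
    fin_cases i <;> fin_cases j <;> simp [Matrix.mul_apply, Fin.sum_univ_two]
    · linear_combination (-s) * d
    · linear_combination (-y) * d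
    · linear_combination (-3 * t) * d - t * h3
  rw [Units.val_mul, f2, f3]
  ext i j
  fin_cases i <;> fin_cases j <;> simp [Matrix.mul_apply, Fin.sum_univ_two] <;>
    linear_combination -d

end

end Pool.Agent.Helper140_T3
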