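import Pool.Agent.Helper140_T3.Sl

/-!
# Two quadratic elements of order three
-/

set_option autoImplicit false

namespace Pool.Agent.Helper140_T3

open Matrix Polynomial

universe u

theorem charP3 (R : Type u) [Ring R] [Nontrivial R] (h3 : (3 : R) = 0) : CharP R 3 := by
  obtain ⟨p, hp⟩ := CharP.exists R
  have h5 : p ∣ 3 := (CharP.cast_eq_zero_iff R p 3).1 (by exact_mod_cast h3)
  rcases (Nat.dvd_prime Nat.prime_three).1 h5 with rfl | rfl
  · exfalso
    have h := CharP.cast_eq_zero R 1
    rw [Nat.cast_one] at h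
    exact one_ne_zero h
  · exact hp

section
variable {R : Type u} [Ring R] [Algebra (ZMod 3) R]

/-- polynomials in `T` commute with what commutes with `T` -/
theorem comm_aeval {A T : R} (h : A * T = T * A) (g : (ZMod 3)[X]) :
    A * aeval T g = aeval T g * A := by
  have h1 : Algebra.adjoin (ZMod 3) {T} ≤ Subalgebra.centralizer (ZMod 3) {A} := by
    rw [Algebra.adjoin_le_iff]
    intro z hz
    rw [Set.mem_singleton_iff] at hz
    subst hz
    rw [SetLike.mem_coe, Subalgebra.mem_centralizer_iff]
    intro y hy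
    rw [Set.mem_singleton_iff] at hy
    subst hy
    exact h
  exact Subalgebra.mem_centralizer_iff _ |>.1 (h1 (aeval_mem_adjoin_singleton (ZMod 3) T)) A
    (Set.mem_singleton A)

variable (T x : R) (p : (ZMod 3)[X])

/-- the module structure -/
noncomputable def ee (f : AdjoinRoot p) : R :=
  aeval T (Classical.choose (AdjoinRoot.mk_surjective f)) * x

variable (hpx : aeval T p * x = 0)

include hpx in
theorem ee_mk (g : (ZMod 3)[X]) : ee T x p (AdjoinRoot.mk p g) = aeval T g * x := by
  unfold ee
  have h1 := Classical.choose_spec (AdjoinRoot.mk_surjective (AdjoinRoot.mk p g))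
  set g' := Classical.choose (AdjoinRoot.mk_surjective (AdjoinRoot.mk p g))
  rw [AdjoinRoot.mk_eq_mk] at h1
  obtain ⟨s, hs⟩ := h1
  have h2 : g' = g + s * p := by rw [mul_comm, ← hs]; ring
  rw [h2, map_add, map_mul, add_mul, mul_assoc, hpx, mul_zero, add_zero]

include hpx in
theorem ee_add (f g : AdjoinRoot p) : ee T x p (f + g) = ee T x p f + ee T x p g := by
  obtain ⟨f, rfl⟩ := AdjoinRoot.mk_surjective f
  obtain ⟨g, rfl⟩ := AdjoinRoot.mk_surjective g
  rw [← map_add, ee_mk T x p hpx, ee_mk T x p hpx, ee_mk T x p hpx, map_add, add_mul]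

include hpx in
theorem ee_root (f : AdjoinRoot p) : ee T x p (AdjoinRoot.root p * f) = T * ee T x p f := by
  obtain ⟨f, rfl⟩ := AdjoinRoot.mk_surjective f
  rw [← AdjoinRoot.mk_X, ← map_mul, ee_mk T x p hpx, ee_mk T x p hpx, map_mul, aeval_X, mul_assoc]

theorem ee_comm {A : R} (h : A * T = T * A) (hx : A * x = x * A) (f : AdjoinRoot p) :
    A * ee T x p f = ee T x p f * A := by
  unfold ee
  rw [← mul_assoc, comm_aeval h, mul_assoc, hx, mul_assoc]

/-- the embedding of the two-dimensional module -/
noncomputable def ph (A B : R) (v : Fin 2 → AdjoinRoot p) : R :=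
  A * ee T x p (v 0) + B * A * ee T x p (v 1)

include hpx in
theorem ph_add (A B : R) (v w : Fin 2 → AdjoinRoot p) :
    ph T x p A B (v + w) = ph T x p A B v + ph T x p A B w := by
  unfold ph
  rw [Pi.add_apply, Pi.add_apply, ee_add T x p hpx, ee_add T x p hpx, mul_add, mul_add]
  abel

variable {A B : R} (hA : A * A = 0) (hB : B * B = 0) (hT : T = A * B + B * A)

include hA hT in
theorem comm_A : A * T = T * A := by
  rw [hT, mul_add, add_mul, ← mul_assoc, hA, zero_mul, zero_add, mul_assoc B A A, hA, mul_zero,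
    add_zero, mul_assoc]

include hB hT in
theorem comm_B : B * T = T * B := by
  rw [hT, mul_add, add_mul, ← mul_assoc B B A, hB, zero_mul, add_zero, mul_assoc A B B, hB,
    mul_zero, zero_add, mul_assoc]

include hpx hA hT in
theorem A_ph (v : Fin 2 → AdjoinRoot p) :
    A * ph T x p A B v = ph T x p A B ![AdjoinRoot.root p * v 1, 0] := by
  have e0 : ee T x p (0 : AdjoinRoot p) = 0 := by
    have := ee_mk T x p hpx 0
    rw [map_zero, map_zero, zero_mul] at this
    exact this
  unfold ph
  simp only [Matrix.cons_val_zero, Matrix.cons_val_one]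
  rw [e0, mul_zero, add_zero, ee_root T x p hpx, mul_add, ← mul_assoc A A, hA, zero_mul, zero_add]
  have e1 : A * (B * A) = A * T := by
    rw [hT, mul_add, ← mul_assoc A A B, hA, zero_mul, zero_add]
  rw [← mul_assoc, e1, mul_assoc]

include hpx hB in
theorem B_ph (v : Fin 2 → AdjoinRoot p) :
    B * ph T x p A B v = ph T x p A B ![0, v 0] := by
  have e0 : ee T x p (0 : AdjoinRoot p) = 0 := by
    have := ee_mk T x p hpx 0
    rw [map_zero, map_zero, zero_mul] at this
    exact this
  unfold ph
  simp only [Matrix.cons_val_zero, Matrix.cons_val_one]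
  rw [e0, mul_zero, zero_add, mul_add, ← mul_assoc, ← mul_assoc, ← mul_assoc B B A, hB, zero_mul,
    zero_mul, add_zero]

end

/-- injectivity -/
theorem ph_inj {R : Type u} [Ring R] [Algebra (ZMod 3) R] (T x : R) (p : (ZMod 3)[X])
    [Fact (Irreducible p)] (hpx : aeval T p * x = 0)
    (he : ∀ f : AdjoinRoot p, ee T x p f = 0 → f = 0) (hroot : AdjoinRoot.root p ≠ 0)
    {A B : R} (hA : A * A = 0) (hB : B * B = 0) (hT : T = A * B + B * A)
    (hAx : A * x = x * A) (hBx : B * x = x * B) (v : Fin 2 → AdjoinRoot p)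
    (hv : ph T x p A B v = 0) : v = 0 := by
  have key : ∀ f : AdjoinRoot p, A * ee T x p f = 0 → f = 0 := by
    intro f hf
    have e1 : ee T x p f * A = 0 := by
      rw [← ee_comm T x p (comm_A T hA hT) hAx, hf]
    have e2 : T * ee T x p f = 0 := by
      rw [hT, add_mul, mul_assoc B A, ← hT, hf, mul_zero, add_zero, mul_assoc,
        ee_comm T x p (comm_B T hB hT) hBx, ← mul_assoc, hf, zero_mul]
    rw [← ee_root T x p hpx] at e2
    exact (mul_eq_zero.1 (he _ e2)).resolve_left hroot
  have h1 := A_ph T x p hpx hA hT v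
  rw [hv, mul_zero] at h1
  unfold ph at h1
  simp only [Matrix.cons_val_zero, Matrix.cons_val_one] at h1
  have e0 : ee T x p (0 : AdjoinRoot p) = 0 := by
    have := ee_mk T x p hpx 0
    rw [map_zero, map_zero, zero_mul] at this
    exact this
  rw [e0, mul_zero, add_zero] at h1
  have h2 := (mul_eq_zero.1 (key _ h1.symm)).resolve_left hroot
  unfold ph at hv
  rw [h2, e0, mul_zero, add_zero] at hv
  have h3 := key _ hv
  funext i
  fin_cases i
  · exact h3
  · exact h2

/-- The main step: if `T` acts invertibly on something then there is an element of order four. -/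
theorem four_dvd {R : Type u} [Ring R] [Algebra (ZMod 3) R] (T x : R) (p : (ZMod 3)[X])
    (hp : Irreducible p) (hpx : aeval T p * x = 0)
    (he : ∀ f : AdjoinRoot p, ee T x p f = 0 → f = 0) (hroot : AdjoinRoot.root p ≠ 0)
    (G : Subgroup Rˣ) (n : ℕ) (hn : ∀ g ∈ G, g ^ n = 1) (a b : Rˣ) (haG : a ∈ G) (hbG : b ∈ G)
    {A B : R} (haA : a.val = 1 + A) (hbB : b.val = 1 + B)
    (hA : A * A = 0) (hB : B * B = 0) (hT : T = A * B + B * A)
    (hAx : A * x = x * A) (hBx : B * x = x * B) : 4 ∣ n := by
  have : Fact (Irreducible p) := ⟨hp⟩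
  set K := AdjoinRoot p with hK
  have hfin : Finite K := by
    have h1 : Module.Finite (ZMod 3) K := (AdjoinRoot.powerBasis hp.ne_zero).finite
    exact Module.finite_of_finite (ZMod 3)
  have h3K : (3 : K) = 0 := by
    have h1 : ((3 : ZMod 3)) = 0 := by decide
    have h2 := congrArg (algebraMap (ZMod 3) K) h1
    rw [map_ofNat, map_zero] at h2
    exact h2
  set l : K := AdjoinRoot.root p with hl
  let a' : (Matrix (Fin 2) (Fin 2) K)ˣ :=
    ⟨!![1, l; 0, 1], !![1, -l; 0, 1], by
      ext i j; fin_cases i <;> fin_cases j <;> simp [Matrix.mul_apply, Fin.sum_univ_two], by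
      ext i j; fin_cases i <;> fin_cases j <;> simp [Matrix.mul_apply, Fin.sum_univ_two]⟩
  let b' : (Matrix (Fin 2) (Fin 2) K)ˣ :=
    ⟨!![1, 0; 1, 1], !![1, 0; -1, 1], by
      ext i j; fin_cases i <;> fin_cases j <;> simp [Matrix.mul_apply, Fin.sum_univ_two], by
      ext i j; fin_cases i <;> fin_cases j <;> simp [Matrix.mul_apply, Fin.sum_univ_two]⟩
  set H := Subgroup.closure ({a', b'} : Set (Matrix (Fin 2) (Fin 2) K)ˣ) with hH
  have ha'H : a' ∈ H := Subgroup.subset_closure (by simp)
  have hb'H : b' ∈ H := Subgroup.subset_closure (by simp)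
  have hdet : ∀ h ∈ H, (h.val).det = 1 := by
    intro h hh
    induction hh using Subgroup.closure_induction with
    | mem z hz =>
      rcases hz with rfl | hz
      · change (!![1, l; 0, 1] : Matrix (Fin 2) (Fin 2) K).det = 1
        simp [Matrix.det_fin_two]
      · rw [Set.mem_singleton_iff] at hz
        subst hz
        change (!![1, 0; 1, 1] : Matrix (Fin 2) (Fin 2) K).det = 1
        simp [Matrix.det_fin_two]
    | one => simp
    | mul z w _ _ hz hw => rw [Units.val_mul, Matrix.det_mul, hz, hw, one_mul]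
    | inv z _ hz =>
      have h1 : (z.val * (z⁻¹).val).det = 1 := by rw [Units.mul_inv, Matrix.det_one]
      rw [Matrix.det_mul, hz, one_mul] at h1
      exact h1
  have hD : ∀ h ∈ H, du K * h * (du K)⁻¹ ∈ H := by
    intro h hh
    induction hh using Subgroup.closure_induction with
    | mem z hz =>
      rcases hz with rfl | hz
      · have h1 : du K * a' * (du K)⁻¹ = a'⁻¹ := by
          apply Units.ext
          change dd K * !![1, l; 0, 1] * dd K = !![1, -l; 0, 1]
          ext i j
          fin_cases i <;> fin_cases j <;> simp [dd, Matrix.mul_apply, Fin.sum_univ_two] <;> ring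
        rw [h1]
        exact inv_mem ha'H
      · rw [Set.mem_singleton_iff] at hz
        subst hz
        have h1 : du K * b' * (du K)⁻¹ = b'⁻¹ := by
          apply Units.ext
          change dd K * !![1, 0; 1, 1] * dd K = !![1, 0; -1, 1]
          ext i j
          fin_cases i <;> fin_cases j <;> simp [dd, Matrix.mul_apply, Fin.sum_univ_two] <;> ring
        rw [h1]
        exact inv_mem hb'H
    | one =>
      rw [mul_one, mul_inv_cancel]
      exact one_mem _
    | mul z w _ _ hz hw =>
      have h1 : du K * (z * w) * (du K)⁻¹ = (du K * z * (du K)⁻¹) * (du K * w * (du K)⁻¹) := by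
        group
      rw [h1]
      exact mul_mem hz hw
    | inv z _ hz =>
      have h1 : du K * z⁻¹ * (du K)⁻¹ = (du K * z * (du K)⁻¹)⁻¹ := by group
      rw [h1]
      exact inv_mem hz
  have hrel : ∀ h ∈ H, ∃ w ∈ G, ∀ v, w.val * ph T x p A B v = ph T x p A B (h.val *ᵥ v) := by
    intro h hh
    induction hh using Subgroup.closure_induction with
    | mem z hz =>
      rcases hz with rfl | hz
      · refine ⟨a, haG, fun v => ?_⟩
        rw [haA, add_mul, one_mul, A_ph T x p hpx hA hT, ← ph_add T x p hpx]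
        congr 1
        change _ = (!![1, l; 0, 1] : Matrix (Fin 2) (Fin 2) K) *ᵥ v
        ext i
        fin_cases i <;> simp [Matrix.mulVec, dotProduct, Fin.sum_univ_two, hl]
      · rw [Set.mem_singleton_iff] at hz
        subst hz
        refine ⟨b, hbG, fun v => ?_⟩
        rw [hbB, add_mul, one_mul, B_ph T x p hpx hB, ← ph_add T x p hpx]
        congr 1
        change _ = (!![1, 0; 1, 1] : Matrix (Fin 2) (Fin 2) K) *ᵥ v
        ext i
        fin_cases i
        · simp [Matrix.mulVec, dotProduct, Fin.sum_univ_two]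
        · simp [Matrix.mulVec, dotProduct, Fin.sum_univ_two, add_comm]
    | one => exact ⟨1, one_mem _, fun v => by simp⟩
    | mul z w _ _ hz hw =>
      obtain ⟨z', hz1, hz2⟩ := hz
      obtain ⟨w', hw1, hw2⟩ := hw
      refine ⟨z' * w', mul_mem hz1 hw1, fun v => ?_⟩
      rw [Units.val_mul, mul_assoc, hw2, hz2, Matrix.mulVec_mulVec, Units.val_mul]
    | inv z _ hz =>
      obtain ⟨z', hz1, hz2⟩ := hz
      refine ⟨z'⁻¹, inv_mem hz1, fun v => ?_⟩
      have h1 := hz2 ((z⁻¹).val *ᵥ v)
      rw [Matrix.mulVec_mulVec, Units.mul_inv, Matrix.one_mulVec] at h1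
      rw [← h1, ← mul_assoc, Units.inv_mul, one_mul]
  obtain ⟨h, hhH, hh0⟩ := exists_zero h3K l hroot H a' b' rfl rfl ha'H hb'H
  obtain ⟨M, hMH, hM⟩ := exists_four h3K H hdet hD h hhH hh0
  obtain ⟨w, hwG, hw⟩ := hrel M hMH
  have hpow : ∀ (k : ℕ) v, (w ^ k).val * ph T x p A B v = ph T x p A B ((M ^ k).val *ᵥ v) := by
    intro k
    induction k with
    | zero => intro v; simp
    | succ k ih =>
      intro v
      rw [pow_succ, Units.val_mul, mul_assoc, hw, ih, Matrix.mulVec_mulVec, pow_succ,
        Units.val_mul]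
  have hMn : M ^ n = 1 := by
    apply Units.ext
    have h1 : ∀ v, (M ^ n).val *ᵥ v = v := by
      intro v
      have h2 := hpow n v
      rw [hn w hwG, Units.val_one, one_mul] at h2
      have h4 : ph T x p A B ((M ^ n).val *ᵥ v - v) = 0 := by
        have h5 := ph_add T x p hpx A B ((M ^ n).val *ᵥ v - v) v
        rw [sub_add_cancel, ← h2] at h5
        exact right_eq_add.1 h5
      exact sub_eq_zero.1 (ph_inj T x p hpx he hroot hA hB hT hAx hBx _ h4)
    rw [Units.val_one]
    ext i j
    have h2 := congrFun (h1 (Pi.single j 1)) i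
    rw [Matrix.mulVec_single_one] at h2
    rw [Matrix.one_apply]
    simp only [Matrix.col_apply, Pi.single_apply] at h2
    exact h2
  have h2M : M ^ 2 = -1 := by
    apply Units.ext
    rw [pow_two, Units.val_mul, hM]
    rfl
  have hne : ¬ M ^ 2 ^ 1 = 1 := by
    rw [pow_one, h2M]
    intro h5
    have h6 := congrArg (fun z : (Matrix (Fin 2) (Fin 2) K)ˣ => z.val 0 0) h5
    simp at h6
    have h7 : (1 : K) = 0 := by linear_combination h3K + h6
    exact one_ne_zero h7
  have h4 : M ^ 2 ^ 2 = 1 := by
    have h8 : M ^ 2 ^ 2 = (M ^ 2) ^ 2 := by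
      rw [← pow_mul]
      norm_num
    rw [h8, h2M]
    exact neg_one_sq
  have : Fact (Nat.Prime 2) := ⟨Nat.prime_two⟩
  have ho := orderOf_eq_prime_pow hne h4
  have := orderOf_dvd_of_pow_eq_one hMn
  rw [ho] at this
  exact this

end Pool.Agent.Helper140_T3
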