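import Pool.Agent.Helper140_T3.Fi

/-!
# If `T` is not nilpotent there is a nonabelian finite `2`-subgroup
-/

set_option autoImplicit false

namespace Pool.Agent.Helper140_T3

open Matrix Polynomial

universe u

/-- The main step: `T` does not act invertibly on anything if the finite `2`-subgroups are
abelian. -/
theorem no_root {R : Type u} [Ring R] [Algebra (ZMod 3) R] (T x : R) (p : (ZMod 3)[X])
    (hp : Irreducible p) (hpx : aeval T p * x = 0)
    (he : ∀ f : AdjoinRoot p, ee T x p f = 0 → f = 0) (hroot : AdjoinRoot.root p ≠ 0)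
    (G : Subgroup Rˣ)
    (hab : ∀ Q : Subgroup Rˣ, Q ≤ G → Finite Q → IsPGroup 2 Q → ∀ x ∈ Q, ∀ y ∈ Q, x * y = y * x)
    (a b : Rˣ) (haG : a ∈ G) (hbG : b ∈ G) (ha3 : a ^ 3 = 1) (hb3 : b ^ 3 = 1)
    {A B : R} (haA : a.val = 1 + A) (hbB : b.val = 1 + B)
    (hA : A * A = 0) (hB : B * B = 0) (hT : T = A * B + B * A) (hTi : IsIntegral (ZMod 3) T)
    (hAx : A * x = x * A) (hBx : B * x = x * B) : False := by
  have : Fact (Irreducible p) := ⟨hp⟩
  set K := AdjoinRoot p with hK
  have hfin : Finite K := by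
    have h1 : Module.Finite (ZMod 3) K := (AdjoinRoot.powerBasis hp.ne_zero).finite
    exact Module.finite_of_finite (ZMod 3)
  have h3K : (3 : K) = 0 := by
    have h1 : ((3 : ZMod 3)) = 0 := by decide
    have h2 := congrArg (algebraMap (ZMod 3) K) h1
    rw [map_ofNat, map_zero] at h2
    exact h2
  set l : K := AdjoinRoot.root p with hl
  let a' : (Matrix (Fin 2) (Fin 2) K)ˣ :=
    ⟨!![1, l; 0, 1], !![1, -l; 0, 1], by
      ext i j; fin_cases i <;> fin_cases j <;> simp [Matrix.mul_apply, Fin.sum_univ_two], by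
      ext i j; fin_cases i <;> fin_cases j <;> simp [Matrix.mul_apply, Fin.sum_univ_two]⟩
  let b' : (Matrix (Fin 2) (Fin 2) K)ˣ :=
    ⟨!![1, 0; 1, 1], !![1, 0; -1, 1], by
      ext i j; fin_cases i <;> fin_cases j <;> simp [Matrix.mul_apply, Fin.sum_univ_two], by
      ext i j; fin_cases i <;> fin_cases j <;> simp [Matrix.mul_apply, Fin.sum_univ_two]⟩
  have ha'3 : a' ^ 3 = 1 := by
    apply Units.ext
    rw [Units.val_pow_eq_pow_val, pow_succ, pow_two, Units.val_one]
    change !![1, l; 0, 1] * !![1, l; 0, 1] * !![1, l; 0, 1] = _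
    ext i j
    fin_cases i <;> fin_cases j <;> simp [Matrix.mul_apply, Fin.sum_univ_two]
    linear_combination l * h3K
  have hb'3 : b' ^ 3 = 1 := by
    apply Units.ext
    rw [Units.val_pow_eq_pow_val, pow_succ, pow_two, Units.val_one]
    change !![1, 0; 1, 1] * !![1, 0; 1, 1] * !![1, 0; 1, 1] = _
    ext i j
    fin_cases i <;> fin_cases j <;> simp [Matrix.mul_apply, Fin.sum_univ_two]
    linear_combination h3K
  set H := Subgroup.closure ({a', b'} : Set (Matrix (Fin 2) (Fin 2) K)ˣ) with hH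
  have ha'H : a' ∈ H := Subgroup.subset_closure (by simp)
  have hb'H : b' ∈ H := Subgroup.subset_closure (by simp)
  have hdet : ∀ h ∈ H, (h.val).det = 1 := by
    intro h hh
    induction hh using Subgroup.closure_induction with
    | mem z hz =>
      rcases hz with rfl | hz
      · change (!![1, l; 0, 1] : Matrix (Fin 2) (Fin 2) K).det = 1
        simp [Matrix.det_fin_two]
      · rw [Set.mem_singleton_iff] at hz
        subst hz
        change (!![1, 0; 1, 1] : Matrix (Fin 2) (Fin 2) K).det = 1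
        simp [Matrix.det_fin_two]
    | one => simp
    | mul z w _ _ hz hw => rw [Units.val_mul, Matrix.det_mul, hz, hw, one_mul]
    | inv z _ hz =>
      have h1 : (z.val * (z⁻¹).val).det = 1 := by rw [Units.mul_inv, Matrix.det_one]
      rw [Matrix.det_mul, hz, one_mul] at h1
      exact h1
  have hD : ∀ h ∈ H, du K * h * (du K)⁻¹ ∈ H := by
    intro h hh
    induction hh using Subgroup.closure_induction with
    | mem z hz =>
      rcases hz with rfl | hz
      · have h1 : du K * a' * (du K)⁻¹ = a'⁻¹ := by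
          apply Units.ext
          change dd K * !![1, l; 0, 1] * dd K = !![1, -l; 0, 1]
          ext i j
          fin_cases i <;> fin_cases j <;> simp [dd, Matrix.mul_apply, Fin.sum_univ_two] <;> ring
        rw [h1]
        exact inv_mem ha'H
      · rw [Set.mem_singleton_iff] at hz
        subst hz
        have h1 : du K * b' * (du K)⁻¹ = b'⁻¹ := by
          apply Units.ext
          change dd K * !![1, 0; 1, 1] * dd K = !![1, 0; -1, 1]
          ext i j
          fin_cases i <;> fin_cases j <;> simp [dd, Matrix.mul_apply, Fin.sum_univ_two] <;> ring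
        rw [h1]
        exact inv_mem hb'H
    | one =>
      rw [mul_one, mul_inv_cancel]
      exact one_mem _
    | mul z w _ _ hz hw =>
      have h1 : du K * (z * w) * (du K)⁻¹ = (du K * z * (du K)⁻¹) * (du K * w * (du K)⁻¹) := by
        group
      rw [h1]
      exact mul_mem hz hw
    | inv z _ hz =>
      have h1 : du K * z⁻¹ * (du K)⁻¹ = (du K * z * (du K)⁻¹)⁻¹ := by group
      rw [h1]
      exact inv_mem hz
  obtain ⟨h, hhH, hh0⟩ := exists_zero h3K l hroot H a' b' rfl rfl ha'H hb'H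
  obtain ⟨M, hMH, hM⟩ := exists_four h3K H hdet hD h hhH hh0
  -- the subgroup of the direct product
  set P := Subgroup.closure ({(a, a'), (b, b')} : Set (Rˣ × (Matrix (Fin 2) (Fin 2) K)ˣ)) with hP
  have hrel : ∀ w ∈ P, w.1 ∈ G ∧ ∀ v, w.1.val * ph T x p A B v = ph T x p A B (w.2.val *ᵥ v) := by
    intro h hh
    induction hh using Subgroup.closure_induction with
    | mem z hz =>
      rcases hz with rfl | hz
      · refine ⟨haG, fun v => ?_⟩
        change a.val * _ = _
        rw [haA, add_mul, one_mul, A_ph T x p hpx hA hT, ← ph_add T x p hpx]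
        congr 1
        change _ = (!![1, l; 0, 1] : Matrix (Fin 2) (Fin 2) K) *ᵥ v
        ext i
        fin_cases i <;> simp [Matrix.mulVec, dotProduct, Fin.sum_univ_two, hl]
      · rw [Set.mem_singleton_iff] at hz
        subst hz
        refine ⟨hbG, fun v => ?_⟩
        change b.val * _ = _
        rw [hbB, add_mul, one_mul, B_ph T x p hpx hB, ← ph_add T x p hpx]
        congr 1
        change _ = (!![1, 0; 1, 1] : Matrix (Fin 2) (Fin 2) K) *ᵥ v
        ext i
        fin_cases i
        · simp [Matrix.mulVec, dotProduct, Fin.sum_univ_two]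
        · simp [Matrix.mulVec, dotProduct, Fin.sum_univ_two, add_comm]
    | one => exact ⟨one_mem _, fun v => by simp⟩
    | mul z w _ _ hz hw =>
      refine ⟨mul_mem hz.1 hw.1, fun v => ?_⟩
      rw [Prod.fst_mul, Prod.snd_mul, Units.val_mul, mul_assoc, hw.2, hz.2, Matrix.mulVec_mulVec,
        Units.val_mul]
    | inv z _ hz =>
      refine ⟨inv_mem hz.1, fun v => ?_⟩
      have h1 := hz.2 ((z.2⁻¹).val *ᵥ v)
      rw [Matrix.mulVec_mulVec, Units.mul_inv, Matrix.one_mulVec] at h1
      rw [Prod.fst_inv, Prod.snd_inv, ← h1, ← mul_assoc, Units.inv_mul, one_mul]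
  have hmap1 : P.map (MonoidHom.fst _ _) = Subgroup.closure ({a, b} : Set Rˣ) := by
    rw [hP, MonoidHom.map_closure, Set.image_pair]
    rfl
  have hmap2 : P.map (MonoidHom.snd _ _) = H := by
    rw [hP, MonoidHom.map_closure, Set.image_pair]
    rfl
  have hinj : ∀ w ∈ P, w.1 = 1 → w = 1 := by
    intro w hw h1
    refine Prod.ext h1 (Units.ext ?_)
    have h2 : ∀ v, w.2.val *ᵥ v = v := by
      intro v
      have h4 := (hrel w hw).2 v
      rw [h1, Units.val_one, one_mul] at h4
      have h5 : ph T x p A B (w.2.val *ᵥ v - v) = 0 := by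
        have h6 := ph_add T x p hpx A B (w.2.val *ᵥ v - v) v
        rw [sub_add_cancel, ← h4] at h6
        exact right_eq_add.1 h6
      exact sub_eq_zero.1 (ph_inj T x p hpx he hroot hA hB hT hAx hBx _ h5)
    change w.2.val = 1
    ext i j
    have h4 := congrFun (h2 (Pi.single j 1)) i
    rw [Matrix.mulVec_single_one] at h4
    rw [Matrix.one_apply]
    simp only [Matrix.col_apply, Pi.single_apply] at h4
    exact h4
  have hF1 : Finite (Subgroup.closure ({a, b} : Set Rˣ)) :=
    fin_two hA hB hT hTi a b haA hbB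
  have hPf : Finite P := by
    refine Finite.of_injective (fun w : P => (⟨w.1.1, by
      rw [← hmap1]
      exact ⟨w.1, w.2, rfl⟩⟩ : Subgroup.closure ({a, b} : Set Rˣ))) ?_
    intro w w' hww
    have h1 : w.1.1 = w'.1.1 := congrArg Subtype.val hww
    have h2 := hinj (w.1 * w'.1⁻¹) (mul_mem w.2 (inv_mem w'.2)) (by
      rw [Prod.fst_mul, Prod.fst_inv, h1, mul_inv_cancel])
    exact Subtype.ext (mul_inv_eq_one.1 h2)
  -- the image in the matrix group
  let f := (MonoidHom.snd Rˣ (Matrix (Fin 2) (Fin 2) K)ˣ).subgroupMap P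
  have hf : Function.Surjective f := MonoidHom.subgroupMap_surjective _ P
  have hneg : (-1 : (Matrix (Fin 2) (Fin 2) K)ˣ) ∈ P.map (MonoidHom.snd _ _) := by
    rw [hmap2]
    have h2M : M ^ 2 = -1 := by
      apply Units.ext
      rw [pow_two, Units.val_mul, hM]
      rfl
    rw [← h2M]
    exact pow_mem hMH 2
  have hz := tr_two f hf ({⟨(a, a'), Subgroup.subset_closure (by simp)⟩,
      ⟨(b, b'), Subgroup.subset_closure (by simp)⟩} : Set P) (by
        have h1 : ({⟨(a, a'), Subgroup.subset_closure (by simp)⟩,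
            ⟨(b, b'), Subgroup.subset_closure (by simp)⟩} : Set P)
            = Subtype.val ⁻¹' ({(a, a'), (b, b')} : Set (Rˣ × (Matrix (Fin 2) (Fin 2) K)ˣ)) := by
          ext w
          constructor
          · rintro (rfl | rfl)
            · exact Or.inl rfl
            · exact Or.inr rfl
          · rintro (h | h)
            · exact Or.inl (Subtype.ext h)
            · exact Or.inr (Subtype.ext h)
        rw [h1]
        exact Subgroup.closure_closure_coe_preimage) (by
      rintro s (rfl | rfl)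
      · exact Subtype.ext (Prod.ext ha3 ha'3)
      · exact Subtype.ext (Prod.ext hb3 hb'3)) (by
      intro Q hQ u hu v hv
      have hQ' : IsPGroup 2 (Q.map ((MonoidHom.fst Rˣ (Matrix (Fin 2) (Fin 2) K)ˣ).comp
          P.subtype)) := hQ.map _
      have h1 := hab (Q.map ((MonoidHom.fst Rˣ (Matrix (Fin 2) (Fin 2) K)ˣ).comp P.subtype)) (by
        rintro _ ⟨w, -, rfl⟩
        exact (hrel w.1 w.2).1) (Finite.of_surjective _ (MonoidHom.subgroupMap_surjective
          ((MonoidHom.fst Rˣ (Matrix (Fin 2) (Fin 2) K)ˣ).comp P.subtype) Q)) hQ' u.1.1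
          ⟨u, hu, rfl⟩ v.1.1 ⟨v, hv, rfl⟩
      have h2 := hinj (u.1 * v.1 * (v.1 * u.1)⁻¹) (mul_mem (mul_mem u.2 v.2)
        (inv_mem (mul_mem v.2 u.2))) (by
          rw [Prod.fst_mul, Prod.fst_inv, Prod.fst_mul, Prod.fst_mul, h1, mul_inv_cancel])
      exact Subtype.ext (mul_inv_eq_one.1 h2)) ⟨-1, hneg⟩ (by
      rw [Subgroup.mem_center_iff]
      intro g
      apply Subtype.ext
      apply Units.ext
      change g.1.val * (-1) = (-1) * g.1.val
      rw [mul_neg, neg_mul, mul_one, one_mul]) (Subtype.ext neg_one_sq)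
  have h1 := congrArg Subtype.val hz
  have h6 := congrArg (fun z : (Matrix (Fin 2) (Fin 2) K)ˣ => z.val 0 0) h1
  simp at h6
  have h7 : (1 : K) = 0 := by linear_combination h3K + h6
  exact one_ne_zero h7

/-- nilpotency -/
theorem nilp2 {R : Type u} [Ring R] (h3 : (3 : R) = 0) (G : Subgroup Rˣ) (n : ℕ) (hn0 : 0 < n)
    (hab : ∀ Q : Subgroup Rˣ, Q ≤ G → Finite Q → IsPGroup 2 Q → ∀ x ∈ Q, ∀ y ∈ Q, x * y = y * x)
    (hn : ∀ g ∈ G, g ^ n = 1) (a b : Rˣ) (haG : a ∈ G) (hbG : b ∈ G)
    (ha3 : a ^ 3 = 1) (hb3 : b ^ 3 = 1) {A B : R}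
    (haA : a.val = 1 + A) (hbB : b.val = 1 + B) (hA : A * A = 0) (hB : B * B = 0) :
    ∃ k : ℕ, (A * B + B * A) ^ k = 0 := by
  rcases subsingleton_or_nontrivial R with hR | hR
  · exact ⟨0, Subsingleton.elim _ _⟩
  have : CharP R 3 := charP3 R h3
  let _ : Algebra (ZMod 3) R := ZMod.algebra R 3
  obtain ⟨T, hT⟩ : ∃ T, T = A * B + B * A := ⟨_, rfl⟩
  rw [← hT]
  have hTi : IsIntegral (ZMod 3) T := by
    have hc : IsIntegral (ZMod 3) (a * b : Rˣ).val := by
      refine ⟨X ^ n - C 1, monic_X_pow_sub_C 1 hn0.ne', ?_⟩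
      rw [← aeval_def, map_sub, map_pow, aeval_X, aeval_C, map_one, ← Units.val_pow_eq_pow_val,
        hn _ (mul_mem haG hbG), Units.val_one, sub_self]
    refine IsIntegral.of_mem_of_fg (Algebra.adjoin (ZMod 3) {(a * b : Rˣ).val})
      hc.fg_adjoin_singleton T ?_
    have hmem : (a * b : Rˣ).val ∈ Algebra.adjoin (ZMod 3) {(a * b : Rˣ).val} :=
      Algebra.subset_adjoin rfl
    have hinv : ((a * b : Rˣ)⁻¹).val = (a * b : Rˣ).val ^ (n - 1) := by
      have h1 : (a * b : Rˣ)⁻¹ = (a * b) ^ (n - 1) := by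
        apply inv_eq_of_mul_eq_one_left
        rw [← pow_succ, Nat.sub_add_cancel hn0]
        exact hn _ (mul_mem haG hbG)
      rw [h1, Units.val_pow_eq_pow_val]
    have ha' : (a⁻¹).val = 1 - A := by
      apply Units.inv_eq_of_mul_eq_one_right
      rw [haA, add_mul, one_mul, mul_sub, mul_one, hA]
      abel
    have hb' : (b⁻¹).val = 1 - B := by
      apply Units.inv_eq_of_mul_eq_one_right
      rw [hbB, add_mul, one_mul, mul_sub, mul_one, hB]
      abel
    have e1 : T = (a * b : Rˣ).val + ((a * b : Rˣ)⁻¹).val + 1 := by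
      rw [_root_.mul_inv_rev, Units.val_mul, Units.val_mul, haA, hbB, ha', hb', hT]
      have h3' : (1 : R) + 1 + 1 = 0 := by
        rw [← h3]
        norm_num
      linear_combination (norm := noncomm_ring) -h3'
    rw [e1, hinv]
    exact add_mem (add_mem hmem (pow_mem hmem _)) (one_mem _)
  have hμ0 := minpoly.ne_zero hTi
  have hμT := minpoly.aeval (ZMod 3) T
  obtain ⟨q, hq, hXq⟩ := exists_eq_pow_rootMultiplicity_mul_and_not_dvd _ hμ0 0
  rw [C_0, sub_zero] at hq hXq
  set k := rootMultiplicity 0 (minpoly (ZMod 3) T) with hk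
  by_cases hqu : IsUnit q
  · refine ⟨k, ?_⟩
    rw [hq, map_mul, map_pow, aeval_X] at hμT
    exact (hqu.map (aeval T)).mul_left_eq_zero.1 hμT
  · exfalso
    have hq0 : q ≠ 0 := by
      rintro rfl
      exact hXq (dvd_zero _)
    obtain ⟨p, hp, s, hs⟩ := WfDvdMonoid.exists_irreducible_factor hqu hq0
    set r := X ^ k * s with hr
    have hμ : minpoly (ZMod 3) T = p * r := by
      rw [hq, hs, hr]
      ring
    have hr0 : r ≠ 0 := by
      intro h
      rw [hμ, h, mul_zero] at hμ0
      exact hμ0 rfl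
    have hpx : aeval T p * aeval T r = 0 := by rw [← map_mul, ← hμ, hμT]
    refine no_root T (aeval T r) p hp hpx ?_ ?_ G hab a b haG hbG ha3 hb3 haA hbB hA hB hT hTi
      (comm_aeval (comm_A T hA hT) r) (comm_aeval (comm_B T hB hT) r)
    · intro f hf
      obtain ⟨g, rfl⟩ := AdjoinRoot.mk_surjective f
      rw [ee_mk T _ p hpx, ← map_mul] at hf
      have h5 := minpoly.dvd (ZMod 3) T hf
      rw [hμ] at h5
      exact AdjoinRoot.mk_eq_zero.2 ((mul_dvd_mul_iff_right hr0).1 h5)
    · intro h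
      rw [← AdjoinRoot.mk_X, AdjoinRoot.mk_eq_zero] at h
      have h5 := hp.associated_of_dvd irreducible_X h
      exact hXq (h5.symm.dvd.trans ⟨s, hs⟩)

end Pool.Agent.Helper140_T3
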