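import Pool.Agent.Helper140_T3.Cn

/-!
# Wreath products and the reduction to the exponent `m`
-/

set_option autoImplicit false

namespace Pool.Agent.Helper140_T3

open Pool.Agent.Helper140_E5 Pool.Agent.Helper140_T12
open Subgroup
open scoped commutatorElement

universe u

/-- the cyclic group of order three -/
abbrev Z3 : Type := Multiplicative (ZMod 3)

theorem z3_cube (a : Z3) : a ^ 3 = 1 := by
  revert a
  decide

/-- a generator -/
def gz : Z3 := Multiplicative.ofAdd 1

theorem gz_ne : gz ≠ 1 := by decide

section
variable (H : Type u) [Group H]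

/-- the base of the wreath product -/
def base : Subgroup (RegularWreathProduct Z3 H) := RegularWreathProduct.rightHom.ker

theorem mem_base (x : RegularWreathProduct Z3 H) : x ∈ base H ↔ x.right = 1 := Iff.rfl

theorem base_comm : ∀ x ∈ base H, ∀ y ∈ base H, x * y = y * x := by
  intro x hx y hy
  rw [mem_base] at hx hy
  ext z
  · simp [hx, hy, mul_comm]
  · simp [hx, hy]

theorem base_cube : ∀ x ∈ base H, x ^ 3 = 1 := by
  intro x hx
  rw [mem_base] at hx
  have e : x ^ 3 = x * x * x := by simp only [pow_succ, pow_zero, one_mul]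
  rw [e]
  ext z
  · have := z3_cube (x.left z)
    simp only [pow_succ, pow_zero, one_mul] at this
    simp [hx, this]
  · simp [hx]

theorem wr_pow {m : ℕ} (hH : ∀ x : H, x ^ m = 1) (x : RegularWreathProduct Z3 H) :
    x ^ (3 * m) = 1 := by
  rw [mul_comm, pow_mul]
  refine base_cube H _ ?_
  rw [base, MonoidHom.mem_ker, map_pow]
  exact hH _

theorem base_normal : (base H).Normal := MonoidHom.normal_ker _

attribute [local instance] base_normal

theorem base_solvable : Group.IsSolvable (base H) := by
  refine ⟨1, ?_⟩
  rw [derivedSeries_one, commutator_def, eq_bot_iff, commutator_le]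
  intro x _ y _
  rw [mem_bot, commutatorElement_eq_one_iff_mul_comm]
  exact Subtype.ext (base_comm H x x.2 y y.2)

theorem base_free {m : ℕ} (h3 : ¬ 3 ∣ m) (L : Subgroup (RegularWreathProduct Z3 H))
    (hL : L ≤ base H) (hm : ∀ x ∈ L, x ^ m = 1) : L = ⊥ := by
  rw [eq_bot_iff]
  intro x hx
  rw [mem_bot]
  exact one_of_two ((Nat.Prime.coprime_iff_not_dvd Nat.prime_three).2 h3) (base_cube H x (hL hx))
    (hm x hx)

theorem base_cen : centralizer (base H : Set (RegularWreathProduct Z3 H)) ≤
    RegularWreathProduct.rightHom.ker := by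
  classical
  intro x hx
  rw [mem_centralizer_iff] at hx
  set f : RegularWreathProduct Z3 H := ⟨Pi.mulSingle 1 gz, 1⟩ with hf
  have h1 := hx f (by change f ∈ base H; rw [mem_base])
  have h2 := congrFun (congrArg RegularWreathProduct.left h1) x.right
  simp only [RegularWreathProduct.mul_left, Pi.mul_apply, hf, inv_one, one_mul, inv_mul_cancel,
    Pi.mulSingle_eq_same] at h2
  rw [mul_comm] at h2
  have h3 := mul_left_cancel h2
  rw [MonoidHom.mem_ker]
  change x.right = 1
  by_contra hne
  rw [Pi.mulSingle_eq_of_ne hne] at h3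
  exact gz_ne h3.symm

/-- `H` is a factor group -/
theorem wr_lf (h : LFin (RegularWreathProduct Z3 H ⧸
    centralizer (base H : Set (RegularWreathProduct Z3 H)))) : LFin H := by
  refine LFin.surj (QuotientGroup.lift _ RegularWreathProduct.rightHom (base_cen H)) ?_ h
  intro y
  exact ⟨QuotientGroup.mk (RegularWreathProduct.inl y), rfl⟩

end

end Pool.Agent.Helper140_T3
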